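import Pool.Agent.TH21.MS.LadMain
import Pool.Agent.Y124.NFW
import Pool.Agent.Y124.MultiR

/-!
# From lower bounds near infinity on the real line to the counting theorem over all number fields
-/

set_option autoImplicit false

open Filter Topology Set NumberField MvPolynomial

namespace Pool.Agent.Q192.MS

open Pool.Agent.TH21.MS
open Pool.Agent.Y124 (LocInd nfW relK_of_poly' oneV_of)

theorem ev_opt {κ : Type} (U : κ → ℝ → ℝ) (P : MvPolynomial (Option κ) ℝ) (t : ℝ) :
    ev U (optionEquivRight ℝ κ P) t = eval (fun o => o.elim t fun q => U q t) P := by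
  induction P using MvPolynomial.induction_on with
  | C a => simp [ev]
  | add p q hp hq =>
    have h7 : ev U (optionEquivRight ℝ κ p + optionEquivRight ℝ κ q) t =
        ev U (optionEquivRight ℝ κ p) t + ev U (optionEquivRight ℝ κ q) t := by simp [ev]
    rw [map_add, h7, hp, hq, map_add]
  | mul_X p o hp =>
    have h7 : ∀ A B : MvPolynomial κ (Polynomial ℝ), ev U (A * B) t = ev U A t * ev U B t := by
      intro A B
      simp [ev]
    rw [map_mul, h7, hp, map_mul]
    congr 1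
    cases o with
    | none => simp [ev]
    | some q => simp [ev]

/-- real polynomials which vanish on a half line -/
theorem real_zero {κ : Type} (U : κ → ℝ → ℝ) (h : ℝ → ℝ) (hLB : LB U h) (a : ℝ)
    (P : MvPolynomial (Option κ) ℝ)
    (hP : ∀ t : ℝ, a ≤ t → eval (fun o => o.elim t fun q => U q t) P = 0) : P = 0 := by
  by_contra hne
  have hne' : optionEquivRight ℝ κ P ≠ 0 := by
    intro h0
    exact hne ((optionEquivRight ℝ κ).injective (by rw [h0, map_zero]))
  obtain ⟨C, hC⟩ := hLB _ hne'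
  obtain ⟨t, ht1, ht2⟩ := (hC.and (eventually_ge_atTop a)).exists
  rw [ev_opt, hP t ht2, abs_zero] at ht1
  exact absurd ht1 (not_le.2 (Real.exp_pos _))

theorem locInd_of_LB {κ : Type} [Fintype κ] (y : κ → ℂ → ℂ) (U : κ → ℝ → ℝ) (s : κ → ℕ) (h : ℝ → ℝ)
    (a : ℝ) (hy : ∀ q, ∀ t : ℝ, a ≤ t → AnalyticAt ℂ (y q) t)
    (hU : ∀ q, ∀ t : ℝ, a ≤ t → y q t = Complex.I ^ s q * (U q t : ℂ))
    (hLB : LB U h) (t0 : ℝ) (ht0 : a ≤ t0) : LocInd y (t0 : ℂ) := by
  classical
  intro P hP
  set g : ℂ → ℂ := fun z => eval (fun o => o.elim z fun q => y q z) P with hg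
  have hgan : ∀ t : ℝ, a ≤ t → AnalyticAt ℂ g t := by
    intro t ht
    have e1 : g = fun z => ∑ e ∈ P.support, P.coeff e * ∏ o, (o.elim z fun q => y q z) ^ e o := by
      funext z
      rw [hg]
      simp only [eval_eq']
    rw [e1]
    refine Finset.analyticAt_fun_sum _ fun e _ => analyticAt_const.mul ?_
    refine Finset.analyticAt_fun_prod _ fun o _ => AnalyticAt.fun_pow ?_ _
    cases o with
    | none => exact analyticAt_id
    | some q => exact hy q t ht
  have hG : AnalyticOnNhd ℝ (fun t : ℝ => g t) (Ici a) := by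
    intro t ht
    have h1 : AnalyticAt ℝ g (t : ℂ) := (hgan t ht).restrictScalars
    exact h1.comp (Complex.ofRealCLM.analyticAt t)
  have hzero : ∀ t : ℝ, a ≤ t → g t = 0 := by
    have h2 : (fun t : ℝ => g t) =ᶠ[𝓝 t0] 0 := by
      have := Complex.continuous_ofReal.continuousAt.eventually hP
      exact this
    have h3 := hG.eqOn_zero_of_preconnected_of_eventuallyEq_zero isPreconnected_Ici ht0 h2
    intro t ht
    exact h3 ht
  -- the weights
  set wtt : (Option κ →₀ ℕ) → ℕ := fun e => ∑ q, s q * e (some q) with hwt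
  set c : (Option κ →₀ ℕ) → ℂ := fun e => P.coeff e * Complex.I ^ wtt e with hc
  have hval : ∀ t : ℝ, a ≤ t → ∑ e ∈ P.support, c e *
      ((∏ o : Option κ, (o.elim t fun q => U q t) ^ e o : ℝ) : ℂ) = 0 := by
    intro t ht
    rw [← hzero t ht, hg]
    simp only [eval_eq']
    refine Finset.sum_congr rfl fun e _ => ?_
    rw [hc]
    simp only
    rw [mul_assoc]
    congr 1
    rw [Fintype.prod_option, Fintype.prod_option]
    simp only [Option.elim_none, Option.elim_some]
    have h4 : ∏ q, y q t ^ e (some q) = Complex.I ^ wtt e * ((∏ q, U q t ^ e (some q) : ℝ) : ℂ) := by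
      rw [hwt]
      simp only
      rw [← Finset.prod_pow_eq_pow_sum, Complex.ofReal_prod, ← Finset.prod_mul_distrib]
      refine Finset.prod_congr rfl fun q _ => ?_
      rw [hU q t ht, mul_pow, pow_mul]
      push_cast
      rfl
    rw [h4]
    push_cast
    ring
  have key : ∀ φ : ℂ →ₗ[ℝ] ℝ, ∀ e ∈ P.support, φ (c e) = 0 := by
    intro φ e he
    set R : MvPolynomial (Option κ) ℝ := ∑ e ∈ P.support, monomial e (φ (c e)) with hR
    have hR0 : R = 0 := by
      refine real_zero U h hLB a R fun t ht => ?_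
      rw [hR, map_sum]
      have h5 := congrArg φ (hval t ht)
      rw [map_sum, map_zero] at h5
      rw [← h5]
      refine Finset.sum_congr rfl fun e _ => ?_
      rw [eval_monomial, Finsupp.prod_fintype _ _ (fun _ => pow_zero _)]
      have h6 : c e * ((∏ o : Option κ, (o.elim t fun q => U q t) ^ e o : ℝ) : ℂ) =
          (∏ o : Option κ, (o.elim t fun q => U q t) ^ e o : ℝ) • c e := by
        rw [Complex.real_smul, mul_comm]
      rw [h6, map_smul, smul_eq_mul, mul_comm]
    have h7 := congrArg (coeff e) hR0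
    rw [hR, coeff_sum, coeff_zero] at h7
    simp only [coeff_monomial] at h7
    rw [Finset.sum_ite_eq' P.support e, if_pos he] at h7
    exact h7
  by_contra hne
  obtain ⟨e, he⟩ := support_nonempty.2 hne
  have h8 : c e = 0 := by
    apply Complex.ext
    · exact key Complex.reLm e he
    · exact key Complex.imLm e he
  rw [hc] at h8
  simp only at h8
  rcases mul_eq_zero.1 h8 with h9 | h9
  · exact mem_support_iff.1 he h9
  · exact pow_ne_zero _ Complex.I_ne_zero h9

/-- the counting theorem over all number fields of bounded degree -/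
theorem count {κ η : Type} [Fintype κ] [DecidableEq κ] [Fintype η] [DecidableEq η] (m n d : ℕ)
    (y : κ → ℂ → ℂ) (U : κ → ℝ → ℝ) (s : κ → ℕ) (h : ℝ → ℝ)
    (a b : ℝ) (hy : ∀ q, ∀ t : ℝ, a ≤ t → AnalyticAt ℂ (y q) t)
    (hU : ∀ q, ∀ t : ℝ, a ≤ t → y q t = Complex.I ^ s q * (U q t : ℂ))
    (hLB : LB U h) (A ε : ℝ) (hε : 0 < ε) :
    ∃ B C T₀ : ℝ, 0 ≤ C ∧ 2 ≤ T₀ ∧ ∀ (F : Type) [Field F] [NumberField F],
      Module.finrank ℚ F ≤ m → ∀ (io : F →+* ℂ) (ξ : η → ℂ) (T : ℝ), T₀ ≤ T →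
      ∀ E : Set (Fin n → F), (∀ t ∈ E, (∀ j, Y120.HtLe F T (t j) ∧ io (t j) ∈ Complex.ofReal '' Icc a b) ∧
        ∃ P : MvPolynomial (Fin n × κ) ℂ, (∀ x, P.degreeOf x ≤ d) ∧
        (∀ s, ∃ c : η → 𝓞 F, (∀ i (φ : F →+* ℂ), ‖φ (c i : F)‖ ≤ T ^ A) ∧
          P.coeff s = ∑ i, ξ i * io (c i : F)) ∧
        ∃ s₀, P.coeff s₀ ≠ 0 ∧ ‖MvPolynomial.aeval (fun x : Fin n × κ =>
          y x.2 (io (t x.1))) P‖ ≤ T ^ (-B) * ‖P.coeff s₀‖) →
      E.Finite ∧ (E.ncard : ℝ) ≤
        C * T ^ ε * (({x : F | Y120.HtLe F T x ∧ io x ∈ Complex.ofReal '' Icc a b}.ncard : ℝ)) ^ (n - 1) := by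
  classical
  set K : Set ℂ := Complex.ofReal '' Icc a b with hKdef
  have hK : IsCompact K := isCompact_Icc.image Complex.continuous_ofReal
  obtain ⟨B, C, T₀, hC, hT₀, H⟩ := nfW m n (α := ℂ) (κ := κ) (fun x => x) (fun _ => K) K
    (fun j x hx => hx) 1 (fun j x => by
      have h1 : {y | y ∈ K ∧ y = x} ⊆ {x} := fun y hy => hy.2
      exact ⟨(Set.finite_singleton x).subset h1, by
        simpa using Set.ncard_le_ncard h1 (Set.finite_singleton x)⟩)
    (fun _ z i => y i z) (fun g j =>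
      oneV_of g y K hK (fun i t ht => by
        obtain ⟨t', ht', rfl⟩ := ht
        exact hy i t' ht'.1) fun t ht => by
        obtain ⟨t', ht', rfl⟩ := ht
        exact locInd_of_LB y U s h a hy hU hLB t' ht'.1)
    η d A ε hε
  refine ⟨B, C, T₀, hC, hT₀, fun F _ _ hm io ξ T hT E hE => H F hm io ξ T hT E fun t ht => ?_⟩
  obtain ⟨h1, P, hPd, hPc, s₀, hs₀, hs⟩ := hE t ht
  refine ⟨fun j => io (t j), fun j => ⟨(h1 j).2, rfl, (h1 j).1⟩, ?_⟩
  exact relK_of_poly' F io ξ _ _ _ _ P hPd hPc s₀ hs₀ hs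

end Pool.Agent.Q192.MS
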