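import Pool.Agent.TH21.MS.BlockC
import Mathlib.Order.WellQuasiOrder

/-!
# Adjoining functions of several `exp (- 2 π f_k)` of arbitrary, not comparable size

The theorems are those of `Pool.Agent.TH21.MS.BlockB` and `Pool.Agent.TH21.MS.BlockC` without the condition that the
functions `f_k` are of comparable size; the truncation of the series is replaced by Dickson's lemma.
-/

set_option autoImplicit false

open Set Filter Topology Polynomial Asymptotics

namespace Pool.Agent.Q192.MS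

open Pool.Agent.TH21.MS

theorem dickson {p : ℕ} (S : Set (Fin p → ℕ)) :
    ∃ M : Finset (Fin p → ℕ), (∀ m ∈ M, m ∈ S) ∧ ∀ α ∈ S, ∃ m ∈ M, m ≤ α := by
  classical
  have hfin : {x | Minimal (· ∈ S) x}.Finite :=
    WellQuasiOrderedLE.finite_of_isAntichain (setOfPred_minimal_antichain _)
  refine ⟨hfin.toFinset, fun m hm => (hfin.mem_toFinset.1 hm).1, fun α hα => ?_⟩
  obtain ⟨m, hm, hmin⟩ := exists_minimal_le_of_wellFoundedLT (· ∈ S) α hα
  exact ⟨m, hfin.mem_toFinset.2 hmin, hm⟩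

/-- the terms of the series, the last one the remainder -/
noncomputable def gt (φ : ℝ → ℝ) (τ : ℕ → ℝ) (N n : ℕ) (x : ℝ) : ℝ :=
  if n < N then τ n * x ^ n else φ x - ∑ i ∈ Finset.range N, τ i * x ^ i

theorem gt_sum (φ : ℝ → ℝ) (τ : ℕ → ℝ) (N : ℕ) (x : ℝ) :
    φ x = ∑ n ∈ Finset.range (N + 1), gt φ τ N n x := by
  rw [Finset.sum_range_succ]
  have h1 : ∑ n ∈ Finset.range N, gt φ τ N n x = ∑ n ∈ Finset.range N, τ n * x ^ n := by
    refine Finset.sum_congr rfl fun n hn => ?_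
    rw [gt, if_pos (Finset.mem_range.1 hn)]
  rw [h1, gt, if_neg (lt_irrefl N)]
  ring

theorem gt_O {φ : ℝ → ℝ} {τ : ℕ → ℝ} (h : Tay φ τ) {N n : ℕ} (hn : n ≤ N) :
    (fun x => gt φ τ N n x) =O[𝓝 0] (fun x => x ^ n) := by
  rcases lt_or_eq_of_le hn with h1 | rfl
  · have h2 : (fun x => gt φ τ N n x) = fun x => τ n * x ^ n := by
      funext x
      rw [gt, if_pos h1]
    rw [h2]
    exact (isBigO_refl _ _).const_mul_left _
  · have h2 : (fun x => gt φ τ n n x) = fun x => φ x - ∑ i ∈ Finset.range n, τ i * x ^ i := by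
      funext x
      rw [gt, if_neg (lt_irrefl n)]
    rw [h2]
    exact h.2 n

/-- the coefficients of the terms -/
noncomputable def gc (τ : ℕ → ℝ) (N n : ℕ) (i : ℕ) : ℝ :=
  if n < N then (if i = n then τ i else 0) else (if i < N then 0 else τ i)

theorem gt_hasSum (φ : ℝ → ℝ) (τ : ℕ → ℝ) (N n : ℕ) (x : ℝ) (h : HasSum (fun n => τ n * x ^ n) (φ x)) :
    HasSum (fun i => gc τ N n i * x ^ i) (gt φ τ N n x) := by
  by_cases hn : n < N
  · have h1 : (fun i => gc τ N n i * x ^ i) = fun i => if i = n then τ n * x ^ n else 0 := by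
      funext i
      rw [gc, if_pos hn]
      by_cases hi : i = n
      · rw [if_pos hi, if_pos hi, hi]
      · rw [if_neg hi, if_neg hi, zero_mul]
    rw [h1, gt, if_pos hn]
    exact hasSum_ite_eq n _
  · have h1 : HasSum (fun i => if i < N then τ i * x ^ i else 0) (∑ i ∈ Finset.range N, τ i * x ^ i) := by
      have h2 : ∑ i ∈ Finset.range N, τ i * x ^ i =
          ∑ i ∈ Finset.range N, (if i < N then τ i * x ^ i else 0) :=
        Finset.sum_congr rfl fun i hi => by rw [if_pos (Finset.mem_range.1 hi)]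
      rw [h2]
      exact hasSum_sum_of_ne_finset_zero fun i hi => if_neg fun h3 => hi (Finset.mem_range.2 h3)
    have h2 := h.sub h1
    rw [gt, if_neg hn]
    have h3 : (fun i => gc τ N n i * x ^ i) =
        fun i => τ i * x ^ i - (if i < N then τ i * x ^ i else 0) := by
      funext i
      rw [gc, if_neg hn]
      by_cases hi : i < N
      · rw [if_pos hi, if_pos hi, zero_mul, sub_self]
      · rw [if_neg hi, if_neg hi, sub_zero]
    rw [h3]
    exact h2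

section

variable {κ : Type} {p : ℕ} {ι : Type} [Fintype ι]

/-- the parts of the sum -/
noncomputable def TT (u : κ → ℝ → ℝ) (f : Fin p → ℝ → ℝ) (a : ι → MvPolynomial κ ℝ[X])
    (φ : ι → Fin p → ℝ → ℝ) (τ : ι → Fin p → ℕ → ℝ) (N : ℕ) (γ : Fin p → ℕ) (t : ℝ) : ℝ :=
  ∑ e, ev u (a e) t * ∏ k, gt (φ e k) (τ e k) N (γ k) (xp (f k t))

theorem F_eq (u : κ → ℝ → ℝ) (f : Fin p → ℝ → ℝ) (a : ι → MvPolynomial κ ℝ[X])
    (φ : ι → Fin p → ℝ → ℝ) (τ : ι → Fin p → ℕ → ℝ) (N : ℕ) (t : ℝ) :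
    ∑ e, ev u (a e) t * ∏ k, φ e k (xp (f k t)) =
      ∑ γ ∈ Fintype.piFinset (fun _ : Fin p => Finset.range (N + 1)), TT u f a φ τ N γ t := by
  unfold TT
  rw [Finset.sum_comm]
  refine Finset.sum_congr rfl fun e _ => ?_
  rw [← Finset.mul_sum]
  congr 1
  rw [← Finset.prod_univ_sum (fun _ : Fin p => Finset.range (N + 1))
    (fun k n => gt (φ e k) (τ e k) N n (xp (f k t)))]
  exact Finset.prod_congr rfl fun k _ => gt_sum _ _ N _

theorem TT_lt (u : κ → ℝ → ℝ) (f : Fin p → ℝ → ℝ) (a : ι → MvPolynomial κ ℝ[X])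
    (φ : ι → Fin p → ℝ → ℝ) (τ : ι → Fin p → ℕ → ℝ) (N : ℕ) (γ : Fin p → ℕ) (hγ : ∀ k, γ k < N) (t : ℝ) :
    TT u f a φ τ N γ t = ev u (Pα a τ γ) t * ∏ k, xp (f k t) ^ γ k := by
  rw [ev_Pα, Finset.sum_mul]
  unfold TT
  refine Finset.sum_congr rfl fun e _ => ?_
  have h1 : ∀ k, gt (φ e k) (τ e k) N (γ k) (xp (f k t)) = τ e k (γ k) * xp (f k t) ^ γ k := fun k => by
    rw [gt, if_pos (hγ k)]
  simp only [h1]
  rw [Finset.prod_mul_distrib]
  ring

/-- the parts all whose coefficients vanish -/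
theorem TT_zero (u : κ → ℝ → ℝ) (f : Fin p → ℝ → ℝ) (a : ι → MvPolynomial κ ℝ[X])
    (φ : ι → Fin p → ℝ → ℝ) (τ : ι → Fin p → ℕ → ℝ) (hτ : ∀ e k, Tay (φ e k) (τ e k))
    (hX : ∀ k, Tendsto (fun t => xp (f k t)) atTop (𝓝 0)) (N : ℕ) (M : Finset (Fin p → ℕ))
    (hM2 : ∀ α, Pα a τ α ≠ 0 → ∃ m ∈ M, m ≤ α) (hN : ∀ m ∈ M, ∀ k, m k < N) (γ : Fin p → ℕ)
    (hγ : ∀ k, γ k ≤ N) (hno : ∀ m ∈ M, ¬ m ≤ γ) : ∀ᶠ t in atTop, TT u f a φ τ N γ t = 0 := by
  have h1 : ∀ᶠ t in atTop, ∀ e k, HasSum (fun n => τ e k n * xp (f k t) ^ n) (φ e k (xp (f k t))) :=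
    eventually_all.2 fun e => eventually_all.2 fun k => (hX k).eventually (hτ e k).1
  filter_upwards [h1] with t ht
  have h2 := all_zero (fun e => ev u (a e) t) (fun e k => gt (φ e k) (τ e k) N (γ k))
    (fun e k => gc (τ e k) N (γ k)) ?_ (fun k => xp (f k t)) fun e k => gt_hasSum _ _ _ _ _ (ht e k)
  · exact h2
  intro α
  by_cases hc : ∀ k, (γ k < N → α k = γ k) ∧ (γ k = N → N ≤ α k)
  · have h3 : Pα a τ α = 0 := by
      by_contra h4
      obtain ⟨m, hm, hmα⟩ := hM2 α h4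
      apply hno m hm
      intro k
      rcases lt_or_eq_of_le (hγ k) with h5 | h5
      · rw [← (hc k).1 h5]
        exact hmα k
      · rw [h5]
        exact (hN m hm k).le
    have h4 := ev_Pα u a τ α t
    rw [h3, ev_zero] at h4
    rw [h4]
    refine Finset.sum_congr rfl fun e _ => ?_
    congr 1
    refine Finset.prod_congr rfl fun k _ => ?_
    rcases lt_or_eq_of_le (hγ k) with h5 | h5
    · rw [gc, if_pos h5, if_pos ((hc k).1 h5)]
    · rw [gc, if_neg (by omega), if_neg (not_lt.2 ((hc k).2 h5))]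
  · push Not at hc
    obtain ⟨k, hk⟩ := hc
    refine Finset.sum_eq_zero fun e _ => ?_
    have h3 : gc (τ e k) N (γ k) (α k) = 0 := by
      rcases lt_or_eq_of_le (hγ k) with h5 | h5
      · have h6 : α k ≠ γ k := by
          intro h7
          obtain ⟨h8, -⟩ := hk fun _ => h7
          omega
        rw [gc, if_pos h5, if_neg h6]
      · have h6 : α k < N := (hk fun h8 => absurd h8 (by omega)).2
        rw [gc, if_neg (by omega), if_pos h6]
    rw [Finset.prod_eq_zero (Finset.mem_univ k) h3, zero_mul]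

theorem prod_O {σ : Type} [DecidableEq σ] (s : Finset σ) (g g' : σ → ℝ → ℝ)
    (h : ∀ k ∈ s, (g k) =O[atTop] (g' k)) : (fun t => ∏ k ∈ s, g k t) =O[atTop] (fun t => ∏ k ∈ s, g' k t) := by
  induction s using Finset.induction_on with
  | empty => simp only [Finset.prod_empty]; exact isBigO_refl _ _
  | insert i s hi ih =>
    simp only [Finset.prod_insert hi]
    exact (h i (Finset.mem_insert_self i s)).mul (ih fun k hk => h k (Finset.mem_insert_of_mem hk))

/-- the parts which are dominated by a minimal monomial -/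
theorem TT_small (u : κ → ℝ → ℝ) (h : ℝ → ℝ) (hLB : LB u h)
    (hh : ∀ᶠ t in atTop, Real.log t ≤ h t)
    (hu : ∀ k, ∃ C : ℝ, 0 ≤ C ∧ ∀ᶠ t in atTop, |u k t| ≤ Real.exp (C * h t))
    (h1 : ∀ᶠ t in atTop, 1 ≤ h t) (f : Fin p → ℝ → ℝ) (hpos : ∀ k, ∀ᶠ t in atTop, 0 < f k t)
    (hfh : ∀ k, Tendsto (fun t => f k t / h t) atTop atTop)
    (hX : ∀ k, Tendsto (fun t => xp (f k t)) atTop (𝓝 0)) (a : ι → MvPolynomial κ ℝ[X])
    (φ : ι → Fin p → ℝ → ℝ) (τ : ι → Fin p → ℕ → ℝ) (hτ : ∀ e k, Tay (φ e k) (τ e k)) (N : ℕ)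
    (γ : Fin p → ℕ) (hγ : ∀ k, γ k ≤ N) (m : Fin p → ℕ) (hm : m ≤ γ) (k₀ : Fin p) (hk₀ : m k₀ < γ k₀)
    (hm0 : Pα a τ m ≠ 0) :
    (fun t => TT u f a φ τ N γ t) =o[atTop] (fun t => ev u (Pα a τ m) t * ∏ k, xp (f k t) ^ m k) := by
  classical
  have hXpos : ∀ k t, 0 < xp (f k t) := fun k t => Real.exp_pos _
  unfold TT
  refine IsLittleO.fun_sum fun e _ => ?_
  obtain ⟨C, hC0, hC⟩ := ev_ub u h hh hu (a e)
  obtain ⟨C1, hC1⟩ := hLB _ hm0
  have e1 : (fun t => ev u (a e) t) =O[atTop] (fun t => Real.exp (C * h t)) := by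
    refine IsBigO.of_bound 1 ?_
    filter_upwards [hC] with t ht
    rw [one_mul, Real.norm_eq_abs, Real.norm_eq_abs, abs_of_pos (Real.exp_pos _)]
    exact ht
  have e2 : (fun t => ∏ k, gt (φ e k) (τ e k) N (γ k) (xp (f k t))) =O[atTop]
      (fun t => ∏ k, xp (f k t) ^ γ k) :=
    prod_O Finset.univ (fun k t => gt (φ e k) (τ e k) N (γ k) (xp (f k t))) (fun k t => xp (f k t) ^ γ k)
      fun k _ => (gt_O (hτ e k) (hγ k)).comp_tendsto (hX k)
  have e3 : (fun t => ∏ k, xp (f k t) ^ γ k) =O[atTop] (fun t => xp (f k₀ t) * ∏ k, xp (f k t) ^ m k) := by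
    refine IsBigO.of_bound 1 ?_
    filter_upwards [eventually_all.2 hpos] with t ht
    have hx1 : ∀ k, xp (f k t) ≤ 1 := by
      intro k
      unfold xp
      rw [Real.exp_le_one_iff]
      have := mul_pos (mul_pos two_pos Real.pi_pos) (ht k)
      linarith
    rw [one_mul, Real.norm_eq_abs, Real.norm_eq_abs,
      abs_of_pos (Finset.prod_pos fun k _ => pow_pos (hXpos k t) _),
      abs_of_pos (mul_pos (hXpos k₀ t) (Finset.prod_pos fun k _ => pow_pos (hXpos k t) _)),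
      ← Finset.mul_prod_erase Finset.univ _ (Finset.mem_univ k₀),
      ← Finset.mul_prod_erase Finset.univ (fun k => xp (f k t) ^ m k) (Finset.mem_univ k₀), ← mul_assoc]
    refine mul_le_mul ?_ ?_ (Finset.prod_nonneg fun k _ => (pow_pos (hXpos k t) _).le)
      (mul_pos (hXpos k₀ t) (pow_pos (hXpos k₀ t) _)).le
    · rw [← pow_succ']
      exact pow_le_pow_of_le_one (hXpos k₀ t).le (hx1 k₀) hk₀
    · exact Finset.prod_le_prod (fun k _ => (pow_pos (hXpos k t) _).le) fun k _ =>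
        pow_le_pow_of_le_one (hXpos k t).le (hx1 k) (hm k)
  have e4 : (fun t => Real.exp (C * h t) * xp (f k₀ t)) =o[atTop] (fun t => ev u (Pα a τ m) t) := by
    refine isLittleO_of_tendsto' (by
      filter_upwards [hC1] with t ht h0
      rw [h0, abs_zero] at ht
      exact absurd ht (not_le.2 (Real.exp_pos _))) ?_
    have f1 : Tendsto (fun t => (C + C1 - 2 * Real.pi * (f k₀ t / h t)) * h t) atTop atBot := by
      have f2 : Tendsto (fun t => (C + C1 - 2 * Real.pi * (f k₀ t / h t))) atTop atBot := by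
        have := (tendsto_neg_atTop_atBot.comp
          (Tendsto.const_mul_atTop (show (0 : ℝ) < 2 * Real.pi by positivity) (hfh k₀)))
        refine (tendsto_atBot_add_const_left _ (C + C1) this).congr fun t => ?_
        simp only [Function.comp]
        ring
      have f3 := f2.eventually_le_atBot 0
      refine tendsto_atBot_mono' _ ?_ f2
      filter_upwards [f3, h1] with t g1 g2
      nlinarith
    have f4 := Real.tendsto_exp_atBot.comp f1
    rw [tendsto_zero_iff_abs_tendsto_zero]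
    refine squeeze_zero' (Eventually.of_forall fun t => abs_nonneg _) ?_ f4
    filter_upwards [hC1, h1] with t g1 g3
    simp only [Function.comp]
    have hht : 0 < h t := by linarith
    have f5 : (C + C1 - 2 * Real.pi * (f k₀ t / h t)) * h t =
        (C * h t - 2 * Real.pi * f k₀ t) - (-C1 * h t) := by
      field_simp
      ring
    rw [f5, Real.exp_sub, abs_div, abs_of_pos (mul_pos (Real.exp_pos _) (hXpos k₀ t))]
    have f6 : Real.exp (C * h t) * xp (f k₀ t) = Real.exp (C * h t - 2 * Real.pi * f k₀ t) := by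
      unfold xp
      rw [← Real.exp_add]
      congr 1
    rw [f6]
    exact div_le_div_of_nonneg_left (Real.exp_pos _).le (Real.exp_pos _) g1
  have e5 := (e1.mul (e2.trans e3)).trans_isLittleO (g := fun t => Real.exp (C * h t) * (xp (f k₀ t) *
    ∏ k, xp (f k t) ^ m k)) (k := fun t => ev u (Pα a τ m) t * ∏ k, xp (f k t) ^ m k) ?_
  · exact e5
  have e6 := e4.mul_isBigO (isBigO_refl (fun t => ∏ k, xp (f k t) ^ m k) atTop)
  refine e6.congr_left fun t => ?_
  ring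

end

/-- the main estimate -/
theorem block_coreG {κ : Type} (u : κ → ℝ → ℝ) (h : ℝ → ℝ) (hLB : LB u h)
    (hh : ∀ᶠ t in atTop, Real.log t ≤ h t)
    (hu : ∀ k, ∃ C : ℝ, 0 ≤ C ∧ ∀ᶠ t in atTop, |u k t| ≤ Real.exp (C * h t))
    (h1 : ∀ᶠ t in atTop, 1 ≤ h t) {p : ℕ} (f : Fin p → ℝ → ℝ)
    (hpos : ∀ k, ∀ᶠ t in atTop, 0 < f k t)
    (hcont : ∀ k, ∃ t0, ContinuousOn (f k) (Set.Ici t0))
    (hH : ∀ c : Fin p → ℤ, c ≠ 0 → Tendsto (fun t => |∑ k, (c k : ℝ) * f k t| / h t) atTop atTop)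
    {ι : Type} [Fintype ι] (a : ι → MvPolynomial κ ℝ[X]) (φ : ι → Fin p → ℝ → ℝ) (τ : ι → Fin p → ℕ → ℝ)
    (hτ : ∀ e k, Tay (φ e k) (τ e k)) (α0 : Fin p → ℕ) (hα0 : Pα a τ α0 ≠ 0) :
    ∃ C : ℝ, ∀ᶠ t in atTop, Real.exp (-C * (h t + ∑ k, f k t)) ≤
      |∑ e, ev u (a e) t * ∏ k, φ e k (xp (f k t))| := by
  classical
  have hfh : ∀ k, Tendsto (fun t => f k t / h t) atTop atTop := by
    intro k
    have hc : (Pi.single k 1 : Fin p → ℤ) ≠ 0 := by
      intro h0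
      have := congrFun h0 k
      simp at this
    refine (hH _ hc).congr' ?_
    filter_upwards [hpos k] with t ht
    have : ∑ l, ((Pi.single k 1 : Fin p → ℤ) l : ℝ) * f l t = f k t := by
      rw [Finset.sum_eq_single k]
      · simp
      · intro l _ hl
        simp [hl]
      · intro hk
        exact absurd (Finset.mem_univ k) hk
    rw [this, abs_of_pos ht]
  have hft : ∀ k, Tendsto (f k) atTop atTop := by
    intro k
    refine tendsto_atTop_mono' _ ?_ (hfh k)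
    filter_upwards [h1, hpos k] with t h2 h3
    exact div_le_self h3.le h2
  have hX : ∀ k, Tendsto (fun t => xp (f k t)) atTop (𝓝 0) := fun k => xp_tendsto _ (hft k)
  have hXpos : ∀ k t, 0 < xp (f k t) := fun k t => Real.exp_pos _
  -- the minimal exponents
  obtain ⟨M, hM1, hM2⟩ := dickson {α : Fin p → ℕ | Pα a τ α ≠ 0}
  obtain ⟨N, hN⟩ : ∃ N : ℕ, ∀ m ∈ M, ∀ k, m k < N := by
    refine ⟨(∑ m ∈ M, ∑ k, m k) + 1, fun m hm k => ?_⟩
    have h2 : m k ≤ ∑ k, m k :=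
      Finset.single_le_sum (f := fun k => m k) (fun i _ => Nat.zero_le _) (Finset.mem_univ k)
    have h3 : ∑ k, m k ≤ ∑ m ∈ M, ∑ k, m k :=
      Finset.single_le_sum (f := fun m : Fin p → ℕ => ∑ k, m k) (fun i _ => Nat.zero_le _) hm
    omega
  set S : Finset (Fin p → ℕ) := (Fintype.piFinset (fun _ : Fin p => Finset.range N)).filter
    (fun α => Pα a τ α ≠ 0) with hS
  have hMS : ∀ m ∈ M, m ∈ S := fun m hm => by
    rw [hS, Finset.mem_filter, Fintype.mem_piFinset]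
    exact ⟨fun k => Finset.mem_range.2 (hN m hm k), hM1 m hm⟩
  obtain ⟨m0, hm0, -⟩ := hM2 α0 hα0
  set ψ : (Fin p → ℕ) → ℝ → ℝ := fun α t => ev u (Pα a τ α) t * ∏ k, xp (f k t) ^ α k with hψ
  -- logarithms
  have hlog : ∀ α ∈ S, ∃ C : ℝ, 0 ≤ C ∧ ∀ᶠ t in atTop, ψ α t ≠ 0 ∧
      |Real.log |ψ α t| + 2 * Real.pi * ∑ k, (α k : ℝ) * f k t| ≤ C * h t := by
    intro α hα
    have hne : Pα a τ α ≠ 0 := (Finset.mem_filter.1 hα).2
    obtain ⟨C1, hC1⟩ := hLB _ hne
    obtain ⟨C2, hC2, hC2'⟩ := ev_ub u h hh hu (Pα a τ α)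
    refine ⟨|C1| + C2, by positivity, ?_⟩
    filter_upwards [hC1, hC2', h1] with t g1 g2 g3
    have hev : 0 < |ev u (Pα a τ α) t| := (Real.exp_pos _).trans_le g1
    have hprod : 0 < ∏ k, xp (f k t) ^ α k := Finset.prod_pos fun k _ => pow_pos (hXpos k t) _
    refine ⟨mul_ne_zero (abs_pos.1 hev) hprod.ne', ?_⟩
    have e1 : Real.log |ψ α t| = Real.log |ev u (Pα a τ α) t| - 2 * Real.pi * ∑ k, (α k : ℝ) * f k t := by
      simp only [hψ]
      rw [abs_mul, abs_of_pos hprod, Real.log_mul hev.ne' hprod.ne', Real.log_prod (fun k _ => (pow_pos (hXpos k t) _).ne'),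
        sub_eq_add_neg]
      congr 1
      rw [Finset.mul_sum, ← Finset.sum_neg_distrib]
      refine Finset.sum_congr rfl fun k _ => ?_
      rw [Real.log_pow, xp, Real.log_exp]
      ring
    rw [e1, sub_add_cancel, abs_le]
    have e2 : Real.log |ev u (Pα a τ α) t| ≤ C2 * h t := by
      rw [Real.log_le_iff_le_exp hev]
      exact g2
    have e3 : -C1 * h t ≤ Real.log |ev u (Pα a τ α) t| := by
      rw [Real.le_log_iff_exp_le hev]
      exact g1
    have e4 : C1 * h t ≤ |C1| * h t := mul_le_mul_of_nonneg_right (le_abs_self C1) (by linarith)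
    have e5 : 0 ≤ |C1| * h t := mul_nonneg (abs_nonneg _) (by linarith)
    have e6 : 0 ≤ C2 * h t := mul_nonneg hC2 (by linarith)
    constructor <;> linarith
  have hratio : ∀ α ∈ S, ∀ α' ∈ S,
      Tendsto (fun t => (∑ k, (((α k : ℤ) - (α' k : ℤ) : ℤ) : ℝ) * f k t) / h t) atTop atTop →
      Tendsto (fun t => ψ α t / ψ α' t) atTop (𝓝 0) := by
    intro α hα α' hα' hT
    obtain ⟨C, -, hC⟩ := hlog α hα
    obtain ⟨C', -, hC'⟩ := hlog α' hα'
    have e1 : Tendsto (fun t => (C + C' - 2 * Real.pi * ((∑ k, (((α k : ℤ) - (α' k : ℤ) : ℤ) : ℝ) * f k t) / h t)) *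
        h t) atTop atBot := by
      have e2 : Tendsto (fun t => (C + C' - 2 * Real.pi * ((∑ k, (((α k : ℤ) - (α' k : ℤ) : ℤ) : ℝ) * f k t) / h t)))
          atTop atBot := by
        have := (tendsto_neg_atTop_atBot.comp (Tendsto.const_mul_atTop (show (0 : ℝ) < 2 * Real.pi by positivity) hT))
        refine (tendsto_atBot_add_const_left _ (C + C') this).congr fun t => ?_
        simp only [Function.comp]
        ring
      have e3 := e2.eventually_le_atBot 0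
      refine tendsto_atBot_mono' _ ?_ e2
      filter_upwards [e3, h1] with t g1 g2
      nlinarith
    have e4 := Real.tendsto_exp_atBot.comp e1
    rw [tendsto_zero_iff_abs_tendsto_zero]
    refine squeeze_zero' (Eventually.of_forall fun t => abs_nonneg _) ?_ e4
    filter_upwards [hC, hC', h1] with t g1 g2 g3
    simp only [Function.comp]
    have e5 : |ψ α t / ψ α' t| = Real.exp (Real.log |ψ α t| - Real.log |ψ α' t|) := by
      rw [Real.exp_sub, Real.exp_log (abs_pos.2 g1.1), Real.exp_log (abs_pos.2 g2.1), abs_div]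
    rw [e5]
    apply Real.exp_le_exp.2
    have e6 := abs_le.1 g1.2
    have e7 := abs_le.1 g2.2
    have hht : 0 < h t := by linarith
    have e8 : (C + C' - 2 * Real.pi * ((∑ k, (((α k : ℤ) - (α' k : ℤ) : ℤ) : ℝ) * f k t) / h t)) * h t =
        C * h t + C' * h t - 2 * Real.pi * (∑ k, (α k : ℝ) * f k t - ∑ k, (α' k : ℝ) * f k t) := by
      rw [← Finset.sum_sub_distrib]
      have e9 : ∑ k, (((α k : ℤ) - (α' k : ℤ) : ℤ) : ℝ) * f k t = ∑ k, ((α k : ℝ) * f k t - (α' k : ℝ) * f k t) := by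
        refine Finset.sum_congr rfl fun k _ => ?_
        push_cast
        ring
      rw [e9]
      field_simp
    rw [e8]
    linarith [e6.2, e7.1]
  have hcontS : ∀ c : Fin p → ℤ, ∃ t0, ContinuousOn (fun t => ∑ k, (c k : ℝ) * f k t) (Set.Ici t0) := by
    intro c
    choose t2 ht2 using hcont
    obtain ⟨t3, ht3⟩ : ∃ t3, ∀ k, t2 k ≤ t3 := by
      obtain ⟨M, hM⟩ := (Finset.univ.image t2).bddAbove
      exact ⟨M, fun k => hM (Finset.mem_coe.2 (Finset.mem_image_of_mem t2 (Finset.mem_univ k)))⟩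
    refine ⟨t3, ?_⟩
    refine continuousOn_finsetSum _ fun k _ => ?_
    exact ContinuousOn.mul continuousOn_const ((ht2 k).mono (Ici_subset_Ici.2 (ht3 k)))
  obtain ⟨α1, hα1, hmax⟩ := exists_max S ⟨m0, hMS m0 hm0⟩ ψ
    (fun α hα => by
      obtain ⟨C, -, hC⟩ := hlog α hα
      filter_upwards [hC] with t ht using ht.1)
    (by
      intro α hα α' hα' hne
      have hc : (fun k => (α k : ℤ) - (α' k : ℤ)) ≠ 0 := by
        intro h0
        apply hne
        funext k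
        have := congrFun h0 k
        simp only [Pi.zero_apply] at this
        omega
      rcases sign_dich' _ h (hcontS _) h1 (hH _ hc) with g | g
      · left
        exact hratio α hα α' hα' g
      · right
        refine hratio α' hα' α hα ?_
        refine (tendsto_neg_atBot_atTop.comp g).congr fun t => ?_
        simp only [Function.comp]
        rw [← neg_div, ← Finset.sum_neg_distrib]
        congr 1
        refine Finset.sum_congr rfl fun k _ => ?_
        push_cast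
        ring)
  have hne1 : ∀ᶠ t in atTop, ψ α1 t ≠ 0 := by
    obtain ⟨C, -, hC⟩ := hlog α1 hα1
    filter_upwards [hC] with t ht using ht.1
  set F : ℝ → ℝ := fun t => ∑ e, ev u (a e) t * ∏ k, φ e k (xp (f k t)) with hF
  set G : Finset (Fin p → ℕ) := Fintype.piFinset (fun _ : Fin p => Finset.range (N + 1)) with hG
  have hGle : ∀ γ ∈ G, ∀ k, γ k ≤ N := fun γ hγ k => by
    rw [hG, Fintype.mem_piFinset] at hγ
    exact Nat.lt_succ_iff.1 (Finset.mem_range.1 (hγ k))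
  have hα1G : α1 ∈ G := by
    rw [hG, Fintype.mem_piFinset]
    intro k
    have h2 := (Fintype.mem_piFinset.1 (Finset.mem_filter.1 hα1).1 k)
    rw [Finset.mem_range] at h2 ⊢
    omega
  have hterm : ∀ γ ∈ G, Tendsto (fun t => TT u f a φ τ N γ t / ψ α1 t) atTop
      (𝓝 (if γ = α1 then 1 else 0)) := by
    intro γ hγ
    by_cases hlt : ∀ k, γ k < N
    · by_cases hP : Pα a τ γ = 0
      · have hne : γ ≠ α1 := by
          rintro rfl
          exact (Finset.mem_filter.1 hα1).2 hP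
        rw [if_neg hne]
        refine tendsto_const_nhds.congr fun t => ?_
        rw [TT_lt u f a φ τ N γ hlt t, hP, ev_zero, zero_mul, zero_div]
      · have hγS : γ ∈ S := by
          rw [hS, Finset.mem_filter, Fintype.mem_piFinset]
          exact ⟨fun k => Finset.mem_range.2 (hlt k), hP⟩
        have h2 : (fun t => TT u f a φ τ N γ t / ψ α1 t) = fun t => ψ γ t / ψ α1 t := by
          funext t
          rw [TT_lt u f a φ τ N γ hlt t]
        rw [h2]
        by_cases hee : γ = α1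
        · rw [if_pos hee, hee]
          refine tendsto_const_nhds.congr' ?_
          filter_upwards [hne1] with t ht
          rw [div_self ht]
        · rw [if_neg hee]
          exact hmax γ hγS hee
    · push Not at hlt
      obtain ⟨k₀, hk₀⟩ := hlt
      have hk₀' : γ k₀ = N := le_antisymm (hGle γ hγ k₀) hk₀
      have hne : γ ≠ α1 := by
        rintro rfl
        have h2 := (Fintype.mem_piFinset.1 (Finset.mem_filter.1 hα1).1 k₀)
        rw [Finset.mem_range] at h2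
        omega
      rw [if_neg hne]
      by_cases hex : ∃ m ∈ M, m ≤ γ
      · obtain ⟨m, hm, hmγ⟩ := hex
        have h2 := TT_small u h hLB hh hu h1 f hpos hfh hX a φ τ hτ N γ (hGle γ hγ) m hmγ k₀ (by
          rw [hk₀']
          exact hN m hm k₀) (hM1 m hm)
        have h3 : (ψ m) =O[atTop] (ψ α1) := by
          by_cases he : m = α1
          · rw [he]
          · have := hmax m (hMS m hm) he
            exact (isLittleO_of_tendsto' (by filter_upwards [hne1] with t ht h0 using absurd h0 ht) this).isBigO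
        exact (h2.trans_isBigO h3).tendsto_div_nhds_zero
      · push Not at hex
        have h2 := TT_zero u f a φ τ hτ hX N M (fun α hα => hM2 α hα) hN γ (hGle γ hγ) hex
        refine tendsto_const_nhds.congr' ?_
        filter_upwards [h2] with t ht
        rw [ht, zero_div]
  have htot : Tendsto (fun t => F t / ψ α1 t) atTop (𝓝 1) := by
    have e1 := tendsto_finsetSum G hterm
    rw [Finset.sum_ite_eq' G α1 (fun _ => (1 : ℝ)), if_pos hα1G] at e1
    refine e1.congr fun t => ?_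
    rw [← Finset.sum_div, hF]
    simp only
    rw [F_eq u f a φ τ N t]
  obtain ⟨C, hC0, hC⟩ := hlog α1 hα1
  refine ⟨C + 2 * Real.pi * (∑ k, (α1 k : ℝ)) + Real.log 2, ?_⟩
  filter_upwards [hC, htot.eventually_const_lt (show (1 / 2 : ℝ) < 1 by norm_num), hne1, h1,
    eventually_all.2 hpos] with t g1 g3 g4 g5 g6
  have e1 : |ψ α1 t| / 2 ≤ |F t| := by
    have e2 : |F t| = |F t / ψ α1 t| * |ψ α1 t| := by
      rw [← abs_mul, div_mul_cancel₀ _ g4]
    rw [e2]
    have : (1 / 2 : ℝ) ≤ |F t / ψ α1 t| := g3.le.trans (le_abs_self _)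
    have := abs_nonneg (ψ α1 t)
    nlinarith
  refine le_trans ?_ e1
  have e4 : |ψ α1 t| / 2 = Real.exp (Real.log |ψ α1 t| - Real.log 2) := by
    rw [Real.exp_sub, Real.exp_log (abs_pos.2 g1.1), Real.exp_log two_pos]
  rw [e4]
  apply Real.exp_le_exp.2
  have e5 := (abs_le.1 g1.2).1
  have e6 : ∑ k, (α1 k : ℝ) * f k t ≤ (∑ k, (α1 k : ℝ)) * ∑ k, f k t := by
    rw [Finset.sum_mul]
    refine Finset.sum_le_sum fun k _ => ?_
    refine mul_le_mul_of_nonneg_left ?_ (Nat.cast_nonneg _)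
    exact Finset.single_le_sum (f := fun l => f l t) (fun l _ => (g6 l).le) (Finset.mem_univ k)
  have hsumf : 0 ≤ ∑ k, f k t := Finset.sum_nonneg fun k _ => (g6 k).le
  have hsumα : (0 : ℝ) ≤ ∑ k, (α1 k : ℝ) := Finset.sum_nonneg fun i _ => Nat.cast_nonneg _
  have hpi := Real.pi_pos
  have e7 : 2 * Real.pi * ∑ k, (α1 k : ℝ) * f k t ≤ 2 * Real.pi * ((∑ k, (α1 k : ℝ)) * ∑ k, f k t) :=
    mul_le_mul_of_nonneg_left e6 (by positivity)
  have e8 : 0 ≤ Real.log 2 := Real.log_nonneg one_le_two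
  have e10 : 0 ≤ C * ∑ k, f k t := mul_nonneg hC0 hsumf
  have e11 : 0 ≤ 2 * Real.pi * (∑ k, (α1 k : ℝ)) * h t := by positivity
  have e12 : Real.log 2 ≤ Real.log 2 * (h t + ∑ k, f k t) :=
    le_mul_of_one_le_right e8 (by linarith)
  have e13 : -(C + 2 * Real.pi * (∑ k, (α1 k : ℝ)) + Real.log 2) * (h t + ∑ k, f k t) =
      -(C * h t) - C * ∑ k, f k t - 2 * Real.pi * (∑ k, (α1 k : ℝ)) * h t -
        2 * Real.pi * ((∑ k, (α1 k : ℝ)) * ∑ k, f k t) - Real.log 2 * (h t + ∑ k, f k t) := by ring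
  rw [e13]
  linarith

theorem LB_blockG_core {κ : Type} (u : κ → ℝ → ℝ) (h : ℝ → ℝ) (hLB : LB u h)
    (hh : ∀ᶠ t in atTop, Real.log t ≤ h t)
    (hu : ∀ k, ∃ C : ℝ, 0 ≤ C ∧ ∀ᶠ t in atTop, |u k t| ≤ Real.exp (C * h t))
    (h1 : ∀ᶠ t in atTop, 1 ≤ h t) {p : ℕ} (f : Fin p → ℝ → ℝ)
    (hpos : ∀ k, ∀ᶠ t in atTop, 0 < f k t)
    (hcont : ∀ k, ∃ t0, ContinuousOn (f k) (Set.Ici t0))
    (hH : ∀ c : Fin p → ℤ, c ≠ 0 → Tendsto (fun t => |∑ k, (c k : ℝ) * f k t| / h t) atTop atTop)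
    {r : ℕ} (Gf : Fin r → ℝ → ℝ) (δ : ℝ) (hδ : 0 < δ) (hG : ∀ i, AnalyticOnNhd ℝ (Gf i) (Icc 0 δ))
    (hind : ∀ P : MvPolynomial (Fin r) ℝ,
      (∀ x ∈ Ioc 0 δ, MvPolynomial.eval (fun i => Gf i x / x) P = 0) → P = 0) (D : ℕ)
    (P' : MvPolynomial (Fin p × Fin r) (MvPolynomial κ ℝ[X])) (hP'0 : P' ≠ 0)
    (hD : ∀ e ∈ P'.support, ∑ q, e q ≤ D)
    (τ : P'.support → Fin p → ℕ → ℝ) (hτ : ∀ e k, Tay (psi Gf D (eK e.1 k)) (τ e k)) :
    ∃ C : ℝ, ∀ᶠ t in atTop, Real.exp (-C * (h t + ∑ k, f k t)) ≤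
      |∑ e : P'.support, ev u (P'.coeff e) t * ∏ k, psi Gf D (eK e.1 k) (xp (f k t))| := by
  have hα := exists_alpha u h hLB Gf δ hδ hG hind D P' hP'0 hD τ hτ
  have hcore := @block_coreG κ u h hLB hh hu h1 p f hpos hcont hH P'.support _
    (fun e : P'.support => P'.coeff e) (fun e k => psi Gf D (eK e.1 k)) τ hτ
  obtain ⟨α0, hα0⟩ := hα
  exact hcore α0 hα0

theorem LB_blockG_core' {κ : Type} (u : κ → ℝ → ℝ) (h : ℝ → ℝ) (hLB : LB u h)
    (hh : ∀ᶠ t in atTop, Real.log t ≤ h t)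
    (hu : ∀ k, ∃ C : ℝ, 0 ≤ C ∧ ∀ᶠ t in atTop, |u k t| ≤ Real.exp (C * h t))
    (h1 : ∀ᶠ t in atTop, 1 ≤ h t) {p : ℕ} (f : Fin p → ℝ → ℝ)
    (hpos : ∀ k, ∀ᶠ t in atTop, 0 < f k t)
    (hcont : ∀ k, ∃ t0, ContinuousOn (f k) (Set.Ici t0))
    (hH : ∀ c : Fin p → ℤ, c ≠ 0 → Tendsto (fun t => |∑ k, (c k : ℝ) * f k t| / h t) atTop atTop)
    {r : ℕ} (Gf : Fin r → ℝ → ℝ) (δ : ℝ) (hδ : 0 < δ) (hG : ∀ i, AnalyticOnNhd ℝ (Gf i) (Icc 0 δ))
    (hind : ∀ P : MvPolynomial (Fin r) ℝ,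
      (∀ x ∈ Ioc 0 δ, MvPolynomial.eval (fun i => Gf i x / x) P = 0) → P = 0) (D : ℕ)
    (P' : MvPolynomial (Fin p × Fin r) (MvPolynomial κ ℝ[X])) (hP'0 : P' ≠ 0)
    (hD : ∀ e ∈ P'.support, ∑ q, e q ≤ D) :
    ∃ C : ℝ, ∀ᶠ t in atTop, Real.exp (-C * (h t + ∑ k, f k t)) ≤
      |∑ e : P'.support, ev u (P'.coeff e) t * ∏ k, psi Gf D (eK e.1 k) (xp (f k t))| :=
  LB_blockG_core u h hLB hh hu h1 f hpos hcont hH Gf δ hδ hG hind D P' hP'0 hD
    (fun e k => Classical.choose (exists_tay _ (psi_an Gf D (eK e.1 k) δ hG 0 ⟨le_rfl, hδ.le⟩)))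
    (fun e k => Classical.choose_spec (exists_tay _ (psi_an Gf D (eK e.1 k) δ hG 0 ⟨le_rfl, hδ.le⟩)))

theorem LB_blockG_aux {κ : Type} (u : κ → ℝ → ℝ) (h : ℝ → ℝ) (hLB : LB u h)
    (hh : ∀ᶠ t in atTop, Real.log t ≤ h t)
    (hu : ∀ k, ∃ C : ℝ, 0 ≤ C ∧ ∀ᶠ t in atTop, |u k t| ≤ Real.exp (C * h t)) {p : ℕ} (f : Fin p → ℝ → ℝ)
    (hpos : ∀ k, ∀ᶠ t in atTop, 0 < f k t)
    (hcont : ∀ k, ∃ t0, ContinuousOn (f k) (Set.Ici t0))
    (hH : ∀ c : Fin p → ℤ, c ≠ 0 → Tendsto (fun t => |∑ k, (c k : ℝ) * f k t| / h t) atTop atTop)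
    {r : ℕ} (Gf : Fin r → ℝ → ℝ) (δ : ℝ) (hδ : 0 < δ) (hG : ∀ i, AnalyticOnNhd ℝ (Gf i) (Icc 0 δ))
    (hind : ∀ P : MvPolynomial (Fin r) ℝ,
      (∀ x ∈ Ioc 0 δ, MvPolynomial.eval (fun i => Gf i x / x) P = 0) → P = 0) (D : ℕ)
    (P' : MvPolynomial (Fin p × Fin r) (MvPolynomial κ ℝ[X])) (hP'0 : P' ≠ 0)
    (hD : ∀ e ∈ P'.support, ∑ q, e q ≤ D) :
    ∃ C : ℝ, ∀ᶠ t in atTop, Real.exp (-C * (h t + ∑ k, f k t)) ≤
      |MvPolynomial.eval₂ (MvPolynomial.eval₂Hom (Polynomial.evalRingHom t) (fun k => u k t))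
        (fun q => Gf q.2 (xp (f q.1 t)) / xp (f q.1 t)) P'| := by
  have h1 : ∀ᶠ t in atTop, 1 ≤ h t := by
    filter_upwards [hh, Real.tendsto_log_atTop.eventually_ge_atTop 1] with t h2 h3
    linarith
  obtain ⟨C, hC⟩ := LB_blockG_core' u h hLB hh hu h1 f hpos hcont hH Gf δ hδ hG hind D P' hP'0 hD
  refine ⟨C, ?_⟩
  filter_upwards [hC, eventually_all.2 hpos] with t g1 g2
  have hx0 : ∀ k, 0 < xp (f k t) := fun k => Real.exp_pos _
  have hx1 : ∀ k, xp (f k t) ≤ 1 := by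
    intro k
    unfold xp
    rw [Real.exp_le_one_iff]
    have := mul_pos (mul_pos two_pos Real.pi_pos) (g2 k)
    linarith
  have hprod : 0 < ∏ k, xp (f k t) ^ D := Finset.prod_pos fun k _ => pow_pos (hx0 k) D
  have hprod1 : ∏ k, xp (f k t) ^ D ≤ 1 := Finset.prod_le_one (fun k _ => (pow_pos (hx0 k) D).le)
    fun k _ => pow_le_one₀ (hx0 k).le (hx1 k)
  rw [block_ev Gf D P' hD _ (fun k => xp (f k t)) fun k => (hx0 k).ne', abs_div,
    abs_of_pos hprod]
  refine g1.trans ?_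
  rw [le_div_iff₀ hprod]
  exact mul_le_of_le_one_right (abs_nonneg _) hprod1

/-- Adjoining the functions `G_i (x_k) / x_k`, `x_k = exp (-2π f_k)`, for functions `f_k` of arbitrary size whose
integer linear combinations are much larger than the functions of the base. -/
theorem LB_blockG {κ : Type} (u : κ → ℝ → ℝ) (h : ℝ → ℝ) (hLB : LB u h)
    (hh : ∀ᶠ t in atTop, Real.log t ≤ h t)
    (hu : ∀ k, ∃ C : ℝ, 0 ≤ C ∧ ∀ᶠ t in atTop, |u k t| ≤ Real.exp (C * h t)) {p : ℕ} (f : Fin p → ℝ → ℝ)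
    (hpos : ∀ k, ∀ᶠ t in atTop, 0 < f k t)
    (hcont : ∀ k, ∃ t0, ContinuousOn (f k) (Set.Ici t0))
    (hH : ∀ c : Fin p → ℤ, c ≠ 0 → Tendsto (fun t => |∑ k, (c k : ℝ) * f k t| / h t) atTop atTop)
    {r : ℕ} (Gf : Fin r → ℝ → ℝ) (δ : ℝ) (hδ : 0 < δ) (hG : ∀ i, AnalyticOnNhd ℝ (Gf i) (Icc 0 δ))
    (hind : ∀ P : MvPolynomial (Fin r) ℝ,
      (∀ x ∈ Ioc 0 δ, MvPolynomial.eval (fun i => Gf i x / x) P = 0) → P = 0) :
    LB (Sum.elim (fun (q : Fin p × Fin r) t => Gf q.2 (xp (f q.1 t)) / xp (f q.1 t)) u)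
      (fun t => h t + ∑ k, f k t) := by
  intro P hP
  have hP'0 : MvPolynomial.sumAlgEquiv ℝ[X] (Fin p × Fin r) κ P ≠ 0 := by
    intro h0
    exact hP ((MvPolynomial.sumAlgEquiv ℝ[X] (Fin p × Fin r) κ).injective (by rw [h0, map_zero]))
  obtain ⟨C, hC⟩ := LB_blockG_aux u h hLB hh hu f hpos hcont hH Gf δ hδ hG hind _ _ hP'0
    (fun e he => Finset.le_sup (f := fun e : Fin p × Fin r →₀ ℕ => ∑ q, e q) he)
  refine ⟨C, ?_⟩
  filter_upwards [hC] with t g1
  rw [ev_sumElim']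
  exact g1

end Pool.Agent.Q192.MS
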