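import Pool.Agent.Q192.MS.Gen
import Pool.Agent.Q192.MS.Cpx

/-!
# The functions `exp (2 π f)`, `j (i f)`, `j' (i f)`, `j'' (i f)` for functions `f` of arbitrary growth
-/

set_option autoImplicit false

open Filter Topology Set

namespace Pool.Agent.Q192.MS

open Pool.Agent.TH21.MS
open Pool.Agent.Y124 (LocInd)

/-- `p` functions of arbitrary growth, no nontrivial integral combination of which is `O (log t)` along a sequence -/
structure Gw {p : ℕ} (a : ℝ) (f : Fin p → ℂ → ℂ) : Prop where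
  analytic : ∀ k, ∀ t : ℝ, a ≤ t → AnalyticAt ℂ (f k) t
  real : ∀ k, ∀ t : ℝ, a ≤ t → (f k t).im = 0
  pos : ∀ k, ∀ t : ℝ, a ≤ t → 0 < (f k t).re
  growth : ∀ m : Fin p → ℤ, m ≠ 0 →
    Tendsto (fun t : ℝ => |∑ k, (m k : ℝ) * (f k t).re| / Real.log t) atTop atTop

/-- the real functions -/
noncomputable def wg {p : ℕ} (f : Fin p → ℂ → ℂ) (q : Fin p × Fin 4) (t : ℝ) : ℝ :=
  Gq q.2 (xp (f q.1 t).re) / xp (f q.1 t).re

theorem LB_gen {p : ℕ} {a : ℝ} {f : Fin p → ℂ → ℂ} (hf : Gw a f) : ∃ h : ℝ → ℝ, LB (wg f) h := by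
  have h1 := LB_blockG ue Real.log LB_ue (Eventually.of_forall fun _ => le_rfl) ue_ub
    (fun k (t : ℝ) => (f k t).re)
    (fun k => by filter_upwards [eventually_ge_atTop a] with t ht using hf.pos k t ht)
    (fun k => ⟨a, fun t ht => by
      have h1 : ContinuousAt (fun t : ℝ => (f k t).re) t :=
        Complex.continuous_re.continuousAt.comp ((hf.analytic k t ht).continuousAt.comp
          Complex.continuous_ofReal.continuousAt)
      exact h1.continuousWithinAt⟩) hf.growth Gq (1 / 2) (by norm_num) Gq_an Gq_ind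
  have h2 : ∀ q : Fin p × Fin 4, wg f q =
      Sum.elim (fun (q : Fin p × Fin 4) (t : ℝ) => Gq q.2 (xp (f q.1 t).re) / xp (f q.1 t).re) ue
        (Sum.inl q) := by
    intro q
    rw [Sum.elim_inl]
    rfl
  refine ⟨_, LB_equiv (κ' := Fin p × Fin 4) (κ := (Fin p × Fin 4) ⊕ Empty)
    ⟨Sum.inl, Sum.elim id (fun k => k.elim), fun _ => rfl, fun x => ?_⟩ _ (wg f) h2 _ h1⟩
  rcases x with x | x
  · rfl
  · exact x.elim

/-- the functions of a complex variable -/
noncomputable def yg {p : ℕ} (f : Fin p → ℂ → ℂ) (q : Fin p × Fin 4) (z : ℂ) : ℂ :=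
  jet4 (Complex.I * f q.1 z) q.2

theorem yg_an {p : ℕ} {a : ℝ} {f : Fin p → ℂ → ℂ} (hf : Gw a f) (q : Fin p × Fin 4) (t : ℝ) (ht : a ≤ t) :
    AnalyticAt ℂ (yg f q) t := by
  obtain ⟨k, q⟩ := q
  have hz : AnalyticAt ℂ (fun x => Complex.I * f k x) t := analyticAt_const.mul (hf.analytic k t ht)
  have him : 0 < (Complex.I * f k t).im := by
    have h2 := hf.pos k t ht
    simpa using h2
  have hj : AnalyticAt ℂ jj (Complex.I * f k t) := jj_an _ him
  fin_cases q
  · show AnalyticAt ℂ (fun x => Complex.exp (-(2 * (Real.pi : ℂ) * Complex.I * (Complex.I * f k x)))) t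
    exact (analyticAt_const.mul hz).neg.cexp
  · exact AnalyticAt.fun_comp (f := fun x => Complex.I * f k x) (x := (t : ℂ)) hj hz
  · exact AnalyticAt.fun_comp (f := fun x => Complex.I * f k x) (x := (t : ℂ)) hj.deriv hz
  · exact AnalyticAt.fun_comp (f := fun x => Complex.I * f k x) (x := (t : ℂ)) hj.deriv.deriv hz

theorem yg_real {p : ℕ} {a : ℝ} {f : Fin p → ℂ → ℂ} (hf : Gw a f) (q : Fin p × Fin 4) (t : ℝ) (ht : a ≤ t) :
    yg f q t = Complex.I ^ s4 q.2 * ((wg f q t : ℝ) : ℂ) := by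
  obtain ⟨k, q⟩ := q
  have h2 : f k t = ((f k t).re : ℂ) := by
    apply Complex.ext
    · simp
    · simpa using hf.real k t ht
  show jet4 (Complex.I * f k t) q = _
  rw [h2, jet4_I _ (hf.pos k t ht) q]
  rfl

/-- the functions are independent over `ℂ (t)` -/
theorem yg_loc {p : ℕ} {a : ℝ} {f : Fin p → ℂ → ℂ} (hf : Gw a f) (t : ℝ) (ht : a ≤ t) :
    LocInd (yg f) (t : ℂ) := by
  obtain ⟨h, hLB⟩ := LB_gen hf
  exact locInd_of_LB (yg f) (wg f) (fun q => s4 q.2) h a (yg_an hf) (yg_real hf) hLB t ht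

end Pool.Agent.Q192.MS
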