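import Pool.Agent.Q192.MS.Tower
import Pool.Agent.Q192.MS.Cpx

/-!
# The counting theorem for towers
-/

set_option autoImplicit false

open Filter Topology Set NumberField

namespace Pool.Agent.Q192.MS

open Pool.Agent.TH21.MS

/-- `I` blocks of `p` functions -/
structure Tw {I p : ℕ} (a : ℝ) (f : Fin I → Fin p → ℂ → ℂ) : Prop where
  analytic : ∀ c k, ∀ t : ℝ, a ≤ t → AnalyticAt ℂ (f c k) t
  real : ∀ c k, ∀ t : ℝ, a ≤ t → (f c k t).im = 0
  pos : ∀ c k, ∀ t : ℝ, a ≤ t → 0 < (f c k t).re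
  comparable : ∃ K : ℝ, ∀ c k l, ∀ᶠ t : ℝ in atTop, (f c l t).re ≤ K * (f c k t).re
  growth : ∀ c, ∀ m : Fin p → ℤ, m ≠ 0 → Tendsto (fun t : ℝ => |∑ k, (m k : ℝ) * (f c k t).re| /
    (Real.log t + ∑ c' ∈ Finset.Iio c, ∑ k, (f c' k t).re)) atTop atTop

/-- the numbers -/
noncomputable def num {r I p : ℕ} (σ : Fin r → ℝ) (f : Fin I → Fin p → ℂ → ℂ) (x : ℂ) :
    Option (Fin r) ⊕ (Fin I × (Fin p × Fin 4)) → ℂ
  | Sum.inl none => Complex.log x
  | Sum.inl (some i) => x ^ (σ i : ℂ)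
  | Sum.inr (c, k, q) => jet4 (Complex.I * f c k x) q

/-- the real functions of the tower, indexed by natural numbers -/
noncomputable def fr {I p : ℕ} (f : Fin I → Fin p → ℂ → ℂ) (c : ℕ) (k : Fin p) (t : ℝ) : ℝ :=
  if h : c < I then (f ⟨c, h⟩ k t).re else 0

theorem fr_val {I p : ℕ} (f : Fin I → Fin p → ℂ → ℂ) (c : Fin I) (k : Fin p) (t : ℝ) :
    fr f c k t = (f c k t).re := by
  unfold fr
  rw [dif_pos c.2]

theorem fr_lt {I p : ℕ} (f : Fin I → Fin p → ℂ → ℂ) (c : ℕ) (hc : c < I) (k : Fin p) (t : ℝ) :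
    fr f c k t = (f ⟨c, hc⟩ k t).re := fr_val f ⟨c, hc⟩ k t

theorem sum_range {I p : ℕ} (f : Fin I → Fin p → ℂ → ℂ) (c : Fin I) (t : ℝ) :
    ∑ i ∈ Finset.range c, ∑ k, fr f i k t = ∑ c' ∈ Finset.Iio c, ∑ k, (f c' k t).re := by
  have h1 : Finset.range (c : ℕ) = (Finset.Iio c).map Fin.valEmbedding := by
    rw [Fin.map_valEmbedding_Iio, Nat.Iio_eq_range]
  rw [h1, Finset.sum_map]
  refine Finset.sum_congr rfl fun i _ => Finset.sum_congr rfl fun k _ => ?_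
  exact fr_val f i k t

theorem hb_eq {r : ℕ} (σ : Fin r → ℝ) (t : ℝ) (ht : 1 ≤ t) :
    hb σ t = (1 + ∑ k, |σ k|) * Real.log t := by
  unfold hb
  have h0 : 0 ≤ Real.log t := Real.log_nonneg ht
  have h1 : ∀ k, |σ k * Real.log t| = |σ k| * Real.log t := fun k => by rw [abs_mul, abs_of_nonneg h0]
  simp only [h1]
  rw [abs_of_nonneg h0, ← Finset.sum_mul]
  ring

theorem LB_main {r I p : ℕ} {a : ℝ} (σ : Fin r → ℝ)
    (hσ : ∀ (c0 : ℤ) (c : Fin r → ℤ), (c0 : ℝ) + ∑ k, (c k : ℝ) * σ k = 0 → c0 = 0 ∧ c = 0)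
    (f : Fin I → Fin p → ℂ → ℂ) (hf : Tw a f) :
    LB (Sum.elim (ub σ) (wt (fr f) I)) (Ht (hb σ) (fr f) I) := by
  obtain ⟨K, hK⟩ := hf.comparable
  have hposI : ∀ c < I, ∀ k, ∀ᶠ t in atTop, 0 < fr f c k t := by
    intro c hc k
    filter_upwards [eventually_ge_atTop a] with t ht
    rw [fr_lt f c hc]
    exact hf.pos _ _ t ht
  refine (LB_tower (ub σ) (hb σ) (LB_ub σ hσ) (Eventually.of_forall fun t => hb_ge σ t) (ub_ub σ) (fr f) I
    hposI ?_ K ?_ ?_ I le_rfl).1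
  · intro c hc k
    refine ⟨a, fun t ht => ?_⟩
    have h1 : ContinuousAt (fun t : ℝ => (f ⟨c, hc⟩ k t).re) t :=
      Complex.continuous_re.continuousAt.comp ((hf.analytic ⟨c, hc⟩ k t ht).continuousAt.comp
        Complex.continuous_ofReal.continuousAt)
    have h2 : fr f c k = fun t : ℝ => (f ⟨c, hc⟩ k t).re := funext fun t => fr_lt f c hc k t
    rw [h2]
    exact h1.continuousWithinAt
  · intro c hc k l
    filter_upwards [hK ⟨c, hc⟩ k l] with t ht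
    rw [fr_lt f c hc, fr_lt f c hc]
    exact ht
  · intro c hc m hm
    set M : ℝ := 1 + ∑ k, |σ k| with hM
    have hM1 : 1 ≤ M := by
      have : 0 ≤ ∑ k, |σ k| := Finset.sum_nonneg fun k _ => abs_nonneg _
      linarith
    have h3 := (hf.growth ⟨c, hc⟩ m hm).const_mul_atTop (show 0 < 1 / M by positivity)
    have hpos2 : ∀ᶠ t : ℝ in atTop, ∀ c' : Fin I, ∀ k, 0 < (f c' k t).re :=
      eventually_all.2 fun c' => eventually_all.2 fun k => by
        filter_upwards [eventually_ge_atTop a] with t ht using hf.pos _ _ t ht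
    refine tendsto_atTop_mono' _ ?_ h3
    filter_upwards [hpos2, eventually_gt_atTop (1 : ℝ)] with t ht ht1
    have hS : 0 ≤ ∑ c' ∈ Finset.Iio (⟨c, hc⟩ : Fin I), ∑ k, (f c' k t).re :=
      Finset.sum_nonneg fun c' _ => Finset.sum_nonneg fun k _ => (ht c' k).le
    have hlog : 0 < Real.log t := Real.log_pos ht1
    have h4 : Ht (hb σ) (fr f) c t = M * Real.log t + ∑ c' ∈ Finset.Iio (⟨c, hc⟩ : Fin I), ∑ k, (f c' k t).re := by
      unfold Ht
      rw [hb_eq σ t ht1.le, ← sum_range f ⟨c, hc⟩ t]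
    have h5 : ∑ k, (m k : ℝ) * fr f c k t = ∑ k, (m k : ℝ) * (f ⟨c, hc⟩ k t).re := by
      refine Finset.sum_congr rfl fun k _ => ?_
      rw [fr_lt f c hc]
    rw [h4, h5, one_div, ← div_eq_inv_mul, div_div]
    refine div_le_div_of_nonneg_left (abs_nonneg _) (by positivity) ?_
    nlinarith

theorem num_an {r I p : ℕ} {a : ℝ} (ha : 0 < a) (σ : Fin r → ℝ) (f : Fin I → Fin p → ℂ → ℂ) (hf : Tw a f) :
    ∀ q, ∀ t : ℝ, a ≤ t → AnalyticAt ℂ (fun x => num σ f x q) t := by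
  intro q t ht
  have ht0 : 0 < t := ha.trans_le ht
  have hsl : (t : ℂ) ∈ Complex.slitPlane := by
    rw [Complex.mem_slitPlane_iff]
    left
    simpa using ht0
  rcases q with (_ | i) | ⟨c, k, q⟩
  · exact analyticAt_clog hsl
  · have h1 : AnalyticAt ℂ (fun x : ℂ => x ^ (σ i : ℂ)) t := analyticAt_id.cpow analyticAt_const hsl
    exact h1
  · have hz : AnalyticAt ℂ (fun x => Complex.I * f c k x) t := analyticAt_const.mul (hf.analytic c k t ht)
    have him : 0 < (Complex.I * f c k t).im := by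
      have h2 := hf.pos c k t ht
      simpa using h2
    have hj : AnalyticAt ℂ jj (Complex.I * f c k t) := jj_an _ him
    fin_cases q
    · show AnalyticAt ℂ (fun x => Complex.exp (-(2 * (Real.pi : ℂ) * Complex.I * (Complex.I * f c k x)))) t
      exact (analyticAt_const.mul hz).neg.cexp
    · exact AnalyticAt.fun_comp (f := fun x => Complex.I * f c k x) (x := (t : ℂ)) hj hz
    · exact AnalyticAt.fun_comp (f := fun x => Complex.I * f c k x) (x := (t : ℂ)) hj.deriv hz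
    · exact AnalyticAt.fun_comp (f := fun x => Complex.I * f c k x) (x := (t : ℂ)) hj.deriv.deriv hz

theorem num_real {r I p : ℕ} {a : ℝ} (ha : 0 < a) (σ : Fin r → ℝ) (f : Fin I → Fin p → ℂ → ℂ) (hf : Tw a f) :
    ∀ q, ∀ t : ℝ, a ≤ t → num σ f t q = Complex.I ^ sL q * ((Sum.elim (ub σ) (wt (fr f) I) q t : ℝ) : ℂ) := by
  intro q t ht
  have ht0 : 0 < t := ha.trans_le ht
  rcases q with (_ | i) | ⟨c, k, q⟩
  · simp [num, sL, ub, Complex.ofReal_log ht0.le]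
  · simp [num, sL, ub, Complex.ofReal_cpow ht0.le]
  · have h2 : f c k t = ((f c k t).re : ℂ) := by
      apply Complex.ext
      · simp
      · simpa using hf.real c k t ht
    show jet4 (Complex.I * f c k t) q = _
    rw [h2, jet4_I _ (hf.pos c k t ht) q]
    simp only [sL, Sum.elim_inr, wt, fr_val]

/-- the counting theorem for towers -/
theorem tower_count {r I p : ℕ} (n d m g : ℕ) (a b A ε : ℝ) (ha : 0 < a) (hε : 0 < ε) (σ : Fin r → ℝ)
    (hσ : ∀ (c₀ : ℤ) (c : Fin r → ℤ), (c₀ : ℝ) + ∑ k, (c k : ℝ) * σ k = 0 → c₀ = 0 ∧ c = 0)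
    (f : Fin I → Fin p → ℂ → ℂ) (hf : Tw a f) :
    ∃ B C T₀ : ℝ, 0 ≤ C ∧ 2 ≤ T₀ ∧ ∀ (F : Type) [Field F] [NumberField F],
      Module.finrank ℚ F ≤ m → ∀ (io : F →+* ℂ) (ξ : Fin g → ℂ) (T : ℝ), T₀ ≤ T →
      ∀ E : Set (Fin n → F), (∀ t ∈ E, (∀ j, Y120.HtLe F T (t j) ∧ io (t j) ∈ Complex.ofReal '' Icc a b) ∧
        ∃ P : MvPolynomial (Fin n × (Option (Fin r) ⊕ (Fin I × (Fin p × Fin 4)))) ℂ, (∀ x, P.degreeOf x ≤ d) ∧
        (∀ s, ∃ c : Fin g → 𝓞 F, (∀ i (φ : F →+* ℂ), ‖φ (c i : F)‖ ≤ T ^ A) ∧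
          P.coeff s = ∑ i, ξ i * io (c i : F)) ∧
        ∃ s₀, P.coeff s₀ ≠ 0 ∧ ‖MvPolynomial.aeval (fun x : Fin n × (Option (Fin r) ⊕ (Fin I × (Fin p × Fin 4))) =>
          num σ f (io (t x.1)) x.2) P‖ ≤ T ^ (-B) * ‖P.coeff s₀‖) →
      E.Finite ∧ (E.ncard : ℝ) ≤
        C * T ^ ε * (({x : F | Y120.HtLe F T x ∧ io x ∈ Complex.ofReal '' Icc a b}.ncard : ℝ)) ^ (n - 1) := by
  classical
  exact count (η := Fin g) m n d (fun q x => num σ f x q) _ _ _ a b (num_an ha σ f hf) (num_real ha σ f hf)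
    (LB_main σ hσ f hf) A ε hε

end Pool.Agent.Q192.MS
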