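import Pool.Agent.TH21.MS.LadMain

/-!
# Lower bounds for towers of blocks of functions `exp (2 π f)`, `j (i f)`, `j' (i f)`, `j'' (i f)`
-/

set_option autoImplicit false

open Set Filter Topology Polynomial Asymptotics

namespace Pool.Agent.Q192.MS

open Pool.Agent.TH21.MS

/-- the real functions of the tower -/
noncomputable def wt {p : ℕ} (f : ℕ → Fin p → ℝ → ℝ) (n : ℕ) (q : Fin n × (Fin p × Fin 4)) (t : ℝ) : ℝ :=
  Gq q.2.2 (xp (f q.1 q.2.1 t)) / xp (f q.1 q.2.1 t)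

/-- the control functions of the tower -/
noncomputable def Ht {p : ℕ} (h0 : ℝ → ℝ) (f : ℕ → Fin p → ℝ → ℝ) (n : ℕ) (t : ℝ) : ℝ :=
  h0 t + ∑ i ∈ Finset.range n, ∑ k, f i k t

theorem wt_step {κ : Type} (u : κ → ℝ → ℝ) {p : ℕ} (f : ℕ → Fin p → ℝ → ℝ) (n : ℕ)
    (k : κ ⊕ (Fin (n + 1) × (Fin p × Fin 4))) : Sum.elim u (wt f (n + 1)) k =
    (Sum.elim (fun (q : Fin p × Fin 4) t => Gq q.2 (xp (f n q.1 t)) / xp (f n q.1 t))
      (Sum.elim u (wt f n))) (eqB κ (Fin p × Fin 4) n k) := by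
  rcases k with x | ⟨i, j⟩
  · rfl
  · refine Fin.lastCases ?_ (fun i => ?_) i
    · funext t
      simp [wt, eqB]
    · funext t
      simp [wt, eqB]

theorem LB_tower {κ : Type} (u : κ → ℝ → ℝ) (h0 : ℝ → ℝ) (hLB : LB u h0)
    (hh : ∀ᶠ t in atTop, Real.log t ≤ h0 t)
    (hu : ∀ k, ∃ C : ℝ, 0 ≤ C ∧ ∀ᶠ t in atTop, |u k t| ≤ Real.exp (C * h0 t))
    {p : ℕ} (f : ℕ → Fin p → ℝ → ℝ) (N : ℕ)
    (hpos : ∀ i < N, ∀ k, ∀ᶠ t in atTop, 0 < f i k t)
    (hcont : ∀ i < N, ∀ k, ∃ t0, ContinuousOn (f i k) (Set.Ici t0))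
    (K : ℝ) (hK : ∀ i < N, ∀ k l, ∀ᶠ t in atTop, f i l t ≤ K * f i k t)
    (hH : ∀ i < N, ∀ c : Fin p → ℤ, c ≠ 0 →
      Tendsto (fun t => |∑ k, (c k : ℝ) * f i k t| / Ht h0 f i t) atTop atTop) :
    ∀ n, n ≤ N → LB (Sum.elim u (wt f n)) (Ht h0 f n) ∧ (∀ᶠ t in atTop, Real.log t ≤ Ht h0 f n t) ∧
      (∀ k, ∃ C : ℝ, 0 ≤ C ∧ ∀ᶠ t in atTop, |Sum.elim u (wt f n) k t| ≤ Real.exp (C * Ht h0 f n t)) := by
  intro n
  induction n with
  | zero =>
    intro _
    have hH0 : Ht h0 f 0 = h0 := by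
      funext t
      simp [Ht]
    rw [hH0]
    refine ⟨?_, hh, ?_⟩
    · refine LB_equiv (Equiv.sumEmpty κ (Fin 0 × (Fin p × Fin 4))) u _ ?_ _ hLB
      rintro (x | ⟨i, -⟩)
      · rfl
      · exact i.elim0
    · rintro (x | ⟨i, -⟩)
      · exact hu x
      · exact i.elim0
  | succ n ih =>
    intro hn
    obtain ⟨ih1, ih2, ih3⟩ := ih (by omega)
    have hHs : ∀ t, Ht h0 f (n + 1) t = Ht h0 f n t + ∑ k, f n k t := by
      intro t
      unfold Ht
      rw [Finset.sum_range_succ]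
      ring
    have hHs' : Ht h0 f (n + 1) = fun t => Ht h0 f n t + ∑ k, f n k t := funext hHs
    have h1 : ∀ᶠ t in atTop, 1 ≤ Ht h0 f n t := by
      filter_upwards [ih2, Real.tendsto_log_atTop.eventually_ge_atTop 1] with t h2 h3
      linarith
    have hposn := hpos n (by omega)
    have hft : ∀ k, Tendsto (f n k) atTop atTop := by
      intro k
      have hc : (Pi.single k 1 : Fin p → ℤ) ≠ 0 := by
        intro h0
        have := congrFun h0 k
        simp at this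
      refine tendsto_atTop_mono' _ ?_ (hH n (by omega) _ hc)
      filter_upwards [h1, hposn k] with t h2 h3
      have : ∑ l, ((Pi.single k 1 : Fin p → ℤ) l : ℝ) * f n l t = f n k t := by
        rw [Finset.sum_eq_single k]
        · simp
        · intro l _ hl
          simp [hl]
        · intro hk
          exact absurd (Finset.mem_univ k) hk
      rw [this, abs_of_pos h3]
      exact div_le_self h3.le h2
    have hnew := LB_block (Sum.elim u (wt f n)) (Ht h0 f n) ih1 ih2 ih3 (f n) hposn (hcont n (by omega))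
      (hH n (by omega)) K (hK n (by omega)) Gq (1 / 2) (by norm_num) Gq_an Gq_ind
    have hposa : ∀ᶠ t in atTop, ∀ k, 0 < f n k t := eventually_all.2 hposn
    have hsum : ∀ᶠ t : ℝ in atTop, 0 ≤ ∑ k, f n k t := by
      filter_upwards [hposa] with t ht
      exact Finset.sum_nonneg fun k _ => (ht k).le
    refine ⟨?_, ?_, ?_⟩
    · rw [hHs']
      exact LB_equiv (eqB κ (Fin p × Fin 4) n) _ _ (wt_step u f n) _ hnew
    · filter_upwards [ih2, hsum] with t h2 h3
      rw [hHs]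
      linarith
    · intro k
      rw [wt_step]
      rcases eqB κ (Fin p × Fin 4) n k with q | k'
      · obtain ⟨C, hC, h2⟩ := quot_ub Gq (1 / 2) (by norm_num) Gq_an (f n q.1) (hft q.1) q.2
        refine ⟨C, hC, ?_⟩
        filter_upwards [h2, h1, hposa] with t h3 h4 h5
        refine h3.trans (Real.exp_le_exp.2 (mul_le_mul_of_nonneg_left ?_ hC))
        rw [hHs]
        have h6 : f n q.1 t ≤ ∑ k, f n k t :=
          Finset.single_le_sum (f := fun k => f n k t) (fun k _ => (h5 k).le) (Finset.mem_univ q.1)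
        linarith
      · obtain ⟨C, hC, h2⟩ := ih3 k'
        refine ⟨C, hC, ?_⟩
        filter_upwards [h2, hsum] with t h3 h4
        refine h3.trans (Real.exp_le_exp.2 (mul_le_mul_of_nonneg_left ?_ hC))
        rw [hHs]
        linarith

end Pool.Agent.Q192.MS
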