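import Pool.Agent.Q192.MS.Main

/-!
# Trees of iterates of `y ↦ j (i s y)`
-/

set_option autoImplicit false

open Filter Topology Set

namespace Pool.Agent.Q192.MS

open Pool.Agent.TH21.MS

/-! ## positivity of `j (i y)` -/

theorem A3_nonneg (x : ℝ) (hx : 0 ≤ x) : 0 ≤ A3 ℝ x := by
  unfold A3 ps
  exact tsum_nonneg fun m => by positivity

theorem Dn_cont : ContinuousOn Dn (Ico 0 1) := by
  intro x hx
  have h3 := A3_an ℝ x (mem_ball_of x hx.1 hx.2)
  have h5 := A5_an ℝ x (mem_ball_of x hx.1 hx.2)
  have hid : AnalyticAt ℝ (fun x : ℝ => x) x := analyticAt_id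
  have hD : AnalyticAt ℝ Dn x := by
    unfold Dn
    exact ((((analyticAt_const.mul h3).add ((analyticAt_const.mul hid).mul (h3.pow 2))).add
      ((analyticAt_const.mul (hid.pow 2)).mul (h3.pow 3))).add (analyticAt_const.mul h5)).sub
      ((analyticAt_const.mul hid).mul (h5.pow 2))
  exact hD.continuousAt.continuousWithinAt

theorem Dn_pos (x : ℝ) (h0 : 0 ≤ x) (h1 : x < 1) : 0 < Dn x := by
  by_contra hcon
  push Not at hcon
  have hz : Dn 0 = 1728 := by
    unfold Dn
    rw [A3_zero, A5_zero]
    norm_num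
  have hc : ContinuousOn Dn (Icc 0 x) := Dn_cont.mono fun y hy => ⟨hy.1, lt_of_le_of_lt hy.2 h1⟩
  obtain ⟨y, hy, hy0⟩ := intermediate_value_Icc' h0 hc (show (0 : ℝ) ∈ Icc (Dn x) (Dn 0) from
    ⟨hcon, by rw [hz]; norm_num⟩)
  exact Dn_ne y hy.1 (lt_of_le_of_lt hy.2 h1) hy0

theorem g0_pos (y : ℝ) (hy : 0 < y) : 0 < g0 y := by
  have hx := xx_pos y
  have hx1 := xx_lt hy
  unfold g0 G0
  have h3 := A3_nonneg (xx y) hx.le
  have h4 := Dn_pos (xx y) hx.le hx1
  positivity

/-! ## growth -/

theorem g0_ratio {u v : ℝ → ℝ} (hu : Tendsto u atTop atTop) (hv : Tendsto v atTop atTop)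
    (huv : Tendsto (fun t => v t - u t) atTop atTop) : Tendsto (fun t => g0 (u t) / g0 (v t)) atTop (𝓝 0) := by
  obtain ⟨y0, hy0, h⟩ := g0_log
  have h1 : Tendsto (fun t => Real.exp (2 - 2 * Real.pi * (v t - u t))) atTop (𝓝 0) := by
    refine Real.tendsto_exp_atBot.comp ?_
    have h2 : Tendsto (fun t => 2 * Real.pi * (v t - u t)) atTop atTop :=
      Tendsto.const_mul_atTop (by positivity) huv
    exact tendsto_atBot_add_const_left _ 2 (tendsto_neg_atTop_atBot.comp h2) |>.congr fun t => by
      simp only [Function.comp]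
      ring
  refine squeeze_zero' ?_ ?_ h1
  · filter_upwards [hu.eventually_ge_atTop y0, hv.eventually_ge_atTop y0] with t h2 h3
    exact div_nonneg (h _ h2).1.le (h _ h3).1.le
  · filter_upwards [hu.eventually_ge_atTop y0, hv.eventually_ge_atTop y0] with t h2 h3
    obtain ⟨a1, a2⟩ := h _ h2
    obtain ⟨b1, b2⟩ := h _ h3
    rw [← Real.exp_log a1, ← Real.exp_log b1, ← Real.exp_sub]
    refine Real.exp_le_exp.2 ?_
    have e1 := (abs_le.1 a2).2
    have e2 := (abs_le.1 b2).1
    linarith

theorem g0_tendsto : Tendsto g0 atTop atTop := by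
  obtain ⟨y0, hy0, h⟩ := g0_log
  have h1 : Tendsto (fun y : ℝ => Real.exp (2 * Real.pi * y - 1)) atTop atTop := by
    refine Real.tendsto_exp_atTop.comp ?_
    exact tendsto_atTop_add_const_right _ (-1) (Tendsto.const_mul_atTop (by positivity) tendsto_id)
  refine tendsto_atTop_mono' _ ?_ h1
  filter_upwards [eventually_ge_atTop y0] with y hy
  obtain ⟨a1, a2⟩ := h _ hy
  rw [← Real.exp_log a1]
  refine Real.exp_le_exp.2 ?_
  linarith [(abs_le.1 a2).1]

/-! ## the tree -/

variable {p : ℕ}

/-- The nodes of the tree: node `0` is `x`, node `n + 1` is `j (i s_k y)`, `y` the node number `n / (p + 1)` and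
`k = n mod (p + 1)`. -/
noncomputable def node (s : Fin (p + 1) → ℝ) : ℕ → ℂ → ℂ
  | 0, x => x
  | n + 1, x => jj (Complex.I * (s (Fin.ofNat (p + 1) n) * node s (n / (p + 1)) x))
  decreasing_by exact Nat.lt_succ_of_le (Nat.div_le_self _ _)

/-- the real nodes -/
noncomputable def nodeR (s : Fin (p + 1) → ℝ) : ℕ → ℝ → ℝ
  | 0, x => x
  | n + 1, x => g0 (s (Fin.ofNat (p + 1) n) * nodeR s (n / (p + 1)) x)
  decreasing_by exact Nat.lt_succ_of_le (Nat.div_le_self _ _)

theorem node_zero (s : Fin (p + 1) → ℝ) (x : ℂ) : node s 0 x = x := by rw [node]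

theorem node_succ (s : Fin (p + 1) → ℝ) (n : ℕ) (x : ℂ) :
    node s (n + 1) x = jj (Complex.I * (s (Fin.ofNat (p + 1) n) * node s (n / (p + 1)) x)) := by rw [node]

theorem nodeR_zero (s : Fin (p + 1) → ℝ) (x : ℝ) : nodeR s 0 x = x := by rw [nodeR]

theorem nodeR_succ (s : Fin (p + 1) → ℝ) (n : ℕ) (x : ℝ) :
    nodeR s (n + 1) x = g0 (s (Fin.ofNat (p + 1) n) * nodeR s (n / (p + 1)) x) := by rw [nodeR]

theorem div_lt_succ' (n : ℕ) : n / (p + 1) < n + 1 := Nat.lt_succ_of_le (Nat.div_le_self _ _)

theorem nodeR_pos (s : Fin (p + 1) → ℝ) (hs : ∀ k, 0 < s k) (n : ℕ) (t : ℝ) (ht : 0 < t) : 0 < nodeR s n t := by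
  induction n using Nat.strong_induction_on with
  | _ n ih =>
    cases n with
    | zero => rw [nodeR_zero]; exact ht
    | succ n =>
      rw [nodeR_succ]
      exact g0_pos _ (mul_pos (hs _) (ih _ (div_lt_succ' n)))

theorem node_real (s : Fin (p + 1) → ℝ) (n : ℕ) (t : ℝ) : node s n t = ((nodeR s n t : ℝ) : ℂ) := by
  induction n using Nat.strong_induction_on with
  | _ n ih =>
    cases n with
    | zero => rw [node_zero, nodeR_zero]
    | succ n =>
      rw [node_succ, nodeR_succ, ih _ (div_lt_succ' n), ← jj_I]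
      push_cast
      rfl

theorem node_an (s : Fin (p + 1) → ℝ) (hs : ∀ k, 0 < s k) (n : ℕ) (t : ℝ) (ht : 0 < t) :
    AnalyticAt ℂ (node s n) t := by
  induction n using Nat.strong_induction_on with
  | _ n ih =>
    cases n with
    | zero =>
      have h1 : node s 0 = fun x => x := funext fun x => node_zero s x
      rw [h1]
      exact analyticAt_id
    | succ n =>
      have h1 : node s (n + 1) = fun x => jj (Complex.I * (s (Fin.ofNat (p + 1) n) * node s (n / (p + 1)) x)) :=
        funext fun x => node_succ s n x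
      rw [h1]
      have h2 : AnalyticAt ℂ (fun x => Complex.I * (s (Fin.ofNat (p + 1) n) * node s (n / (p + 1)) x)) t :=
        analyticAt_const.mul (analyticAt_const.mul (ih _ (div_lt_succ' n)))
      have him : 0 < (Complex.I * ((s (Fin.ofNat (p + 1) n) : ℂ) * node s (n / (p + 1)) t)).im := by
        rw [node_real]
        have := mul_pos (hs (Fin.ofNat (p + 1) n)) (nodeR_pos s hs (n / (p + 1)) t ht)
        simpa using this
      exact AnalyticAt.fun_comp (f := fun x => Complex.I * (s (Fin.ofNat (p + 1) n) * node s (n / (p + 1)) x))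
        (x := (t : ℂ)) (jj_an _ him) h2

theorem nodeR_tendsto (s : Fin (p + 1) → ℝ) (hs : ∀ k, 0 < s k) (n : ℕ) : Tendsto (nodeR s n) atTop atTop := by
  induction n using Nat.strong_induction_on with
  | _ n ih =>
    cases n with
    | zero =>
      have h1 : nodeR s 0 = fun x => x := funext fun x => nodeR_zero s x
      rw [h1]
      exact tendsto_id
    | succ n =>
      have h1 : nodeR s (n + 1) = fun x => g0 (s (Fin.ofNat (p + 1) n) * nodeR s (n / (p + 1)) x) :=
        funext fun x => nodeR_succ s n x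
      rw [h1]
      exact g0_tendsto.comp (Tendsto.const_mul_atTop (hs _) (ih _ (div_lt_succ' n)))

/-- every node is much larger than the preceding one -/
theorem nodeR_ratio (s : Fin (p + 1) → ℝ) (hs : ∀ k, 0 < s k) (hmono : StrictMono s) (n : ℕ) :
    Tendsto (fun t => nodeR s n t / nodeR s (n + 1) t) atTop (𝓝 0) := by
  induction n using Nat.strong_induction_on with
  | _ n ih =>
    cases n with
    | zero =>
      obtain ⟨y0, hy0, h⟩ := g0_log
      have hk := hs (Fin.ofNat (p + 1) 0)
      set c := s (Fin.ofNat (p + 1) 0) with hc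
      have h1 : Tendsto (fun t : ℝ => t * Real.exp (-(2 * Real.pi * c) * t) * Real.exp 1) atTop (𝓝 0) := by
        have h2 := Real.tendsto_pow_mul_exp_neg_atTop_nhds_zero 1
        have h3 : Tendsto (fun t : ℝ => 2 * Real.pi * c * t) atTop atTop :=
          Tendsto.const_mul_atTop (by positivity) tendsto_id
        have h4 := (h2.comp h3).mul_const (Real.exp 1 / (2 * Real.pi * c))
        rw [zero_mul] at h4
        refine h4.congr fun t => ?_
        simp only [Function.comp, pow_one]
        have : (2 * Real.pi * c) ≠ 0 := by positivity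
        rw [neg_mul]
        field_simp
      refine squeeze_zero' ?_ ?_ h1
      · filter_upwards [eventually_gt_atTop (0 : ℝ)] with t ht
        exact div_nonneg (nodeR_pos s hs 0 t ht).le (nodeR_pos s hs 1 t ht).le
      · have h5 : Tendsto (fun t : ℝ => c * t) atTop atTop := Tendsto.const_mul_atTop hk tendsto_id
        filter_upwards [eventually_gt_atTop (0 : ℝ), h5.eventually_ge_atTop y0] with t ht h6
        obtain ⟨a1, a2⟩ := h _ h6
        rw [nodeR_zero, nodeR_succ, Nat.zero_div, nodeR_zero, ← hc, div_le_iff₀ a1]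
        have h7 : Real.exp (2 * Real.pi * (c * t) - 1) ≤ g0 (c * t) := by
          rw [← Real.exp_log a1]
          refine Real.exp_le_exp.2 ?_
          linarith [(abs_le.1 a2).1]
        have h8 : t * Real.exp (-(2 * Real.pi * c) * t) * Real.exp 1 * Real.exp (2 * Real.pi * (c * t) - 1) = t := by
          rw [mul_assoc, mul_assoc, ← Real.exp_add, ← Real.exp_add]
          have : -(2 * Real.pi * c) * t + (1 + (2 * Real.pi * (c * t) - 1)) = 0 := by ring
          rw [this, Real.exp_zero, mul_one]
        calc t = t * Real.exp (-(2 * Real.pi * c) * t) * Real.exp 1 * Real.exp (2 * Real.pi * (c * t) - 1) := h8.symm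
          _ ≤ _ := mul_le_mul_of_nonneg_left h7 (by positivity)
    | succ n =>
      have e1 : ∀ t, nodeR s (n + 1) t = g0 (s (Fin.ofNat (p + 1) n) * nodeR s (n / (p + 1)) t) := fun t =>
        nodeR_succ s n t
      have e2 : ∀ t, nodeR s (n + 1 + 1) t = g0 (s (Fin.ofNat (p + 1) (n + 1)) * nodeR s ((n + 1) / (p + 1)) t) :=
        fun t => nodeR_succ s (n + 1) t
      simp only [e1, e2]
      refine g0_ratio (Tendsto.const_mul_atTop (hs _) (nodeR_tendsto s hs _))
        (Tendsto.const_mul_atTop (hs _) (nodeR_tendsto s hs _)) ?_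
      by_cases hlast : n % (p + 1) = p
      · -- the next parent
        have hdiv : (n + 1) / (p + 1) = n / (p + 1) + 1 := by
          have h1 := Nat.div_add_mod n (p + 1)
          rw [hlast] at h1
          have h2 : n + 1 = (p + 1) * (n / (p + 1) + 1) := by
            rw [mul_add, mul_one]
            omega
          conv_lhs => rw [h2]
          exact Nat.mul_div_cancel_left _ (Nat.succ_pos p)
        rw [hdiv]
        have hlt : n / (p + 1) < n + 1 := div_lt_succ' n
        have h3 := ih (n / (p + 1)) hlt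
        set A := nodeR s (n / (p + 1)) with hA
        set B := nodeR s (n / (p + 1) + 1) with hB
        set u := s (Fin.ofNat (p + 1) n) with hu
        set v := s (Fin.ofNat (p + 1) (n + 1)) with hv
        have hvp : 0 < v := hs _
        have hup : 0 < u := hs _
        have h4 : ∀ᶠ t in atTop, A t / B t < v / (2 * u) := h3.eventually_lt_const (by positivity)
        have h5 : Tendsto (fun t => v / 2 * B t) atTop atTop :=
          Tendsto.const_mul_atTop (by positivity) (nodeR_tendsto s hs _)
        refine tendsto_atTop_mono' _ ?_ h5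
        filter_upwards [h4, eventually_gt_atTop (0 : ℝ)] with t h6 h7
        have hBp : 0 < B t := nodeR_pos s hs _ t h7
        rw [div_lt_iff₀ hBp] at h6
        have h8 : u * A t ≤ u * (v / (2 * u) * B t) := mul_le_mul_of_nonneg_left h6.le hup.le
        have h9 : u * (v / (2 * u) * B t) = v / 2 * B t := by
          field_simp
        linarith
      · -- the same parent
        have hlt : n % (p + 1) < p := by
          have := Nat.mod_lt n (show 0 < p + 1 by omega)
          omega
        have hdm := Nat.div_add_mod n (p + 1)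
        have h2 : n + 1 = (n % (p + 1) + 1) + (p + 1) * (n / (p + 1)) := by omega
        have hdiv : (n + 1) / (p + 1) = n / (p + 1) := by
          conv_lhs => rw [h2]
          rw [Nat.add_mul_div_left _ _ (Nat.succ_pos p), Nat.div_eq_of_lt (by omega), zero_add]
        have hmod : (n + 1) % (p + 1) = n % (p + 1) + 1 := by
          conv_lhs => rw [h2]
          rw [Nat.add_mul_mod_self_left, Nat.mod_eq_of_lt (by omega)]
        rw [hdiv]
        have hlt2 : s (Fin.ofNat (p + 1) n) < s (Fin.ofNat (p + 1) (n + 1)) := by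
          apply hmono
          rw [Fin.lt_def, Fin.val_ofNat, Fin.val_ofNat, hmod]
          omega
        have h3 : Tendsto (fun t => (s (Fin.ofNat (p + 1) (n + 1)) - s (Fin.ofNat (p + 1) n)) *
            nodeR s (n / (p + 1)) t) atTop atTop :=
          Tendsto.const_mul_atTop (sub_pos.2 hlt2) (nodeR_tendsto s hs _)
        refine h3.congr fun t => ?_
        ring

theorem nodeR_ratio' (s : Fin (p + 1) → ℝ) (hs : ∀ k, 0 < s k) (hmono : StrictMono s) (m n : ℕ) (hmn : m < n) :
    Tendsto (fun t => nodeR s m t / nodeR s n t) atTop (𝓝 0) := by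
  induction n with
  | zero => omega
  | succ n ih =>
    rcases Nat.lt_succ_iff_lt_or_eq.1 hmn with h | h
    · have h1 := (ih h).mul (nodeR_ratio s hs hmono n)
      rw [mul_zero] at h1
      refine h1.congr' ?_
      filter_upwards [eventually_gt_atTop (0 : ℝ)] with t ht
      have h2 := (nodeR_pos s hs n t ht).ne'
      have h3 := (nodeR_pos s hs (n + 1) t ht).ne'
      field_simp
    · rw [h]
      exact nodeR_ratio s hs hmono n

/-- the tower of the tree -/
theorem tree_tw (s : Fin (p + 1) → ℝ) (hs : ∀ k, 0 < s k) (hmono : StrictMono s)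
    (hind : ∀ c : Fin (p + 1) → ℤ, ∑ k, (c k : ℝ) * s k = 0 → c = 0) (I : ℕ) (a : ℝ) (ha : 0 < a) :
    Tw a (fun (c : Fin I) (k : Fin (p + 1)) x => (s k : ℂ) * node s c x) := by
  have hre : ∀ (c : Fin I) (k : Fin (p + 1)) (t : ℝ), ((s k : ℂ) * node s c t).re = s k * nodeR s c t := by
    intro c k t
    rw [node_real, ← Complex.ofReal_mul, Complex.ofReal_re]
  refine ⟨?_, ?_, ?_, ?_, ?_⟩
  · intro c k t ht
    exact analyticAt_const.mul (node_an s hs c t (ha.trans_le ht))
  · intro c k t ht
    rw [node_real, ← Complex.ofReal_mul, Complex.ofReal_im]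
  · intro c k t ht
    rw [hre]
    exact mul_pos (hs k) (nodeR_pos s hs c t (ha.trans_le ht))
  · refine ⟨(∑ l, s l) * ∑ k, 1 / s k, fun c k l => ?_⟩
    filter_upwards [eventually_gt_atTop (0 : ℝ)] with t ht
    rw [hre, hre]
    have h3 : s l ≤ ∑ l, s l :=
      Finset.single_le_sum (f := fun l => s l) (fun l _ => (hs l).le) (Finset.mem_univ l)
    have h4 : 1 / s k ≤ ∑ k, 1 / s k :=
      Finset.single_le_sum (f := fun k => 1 / s k) (fun k _ => (one_div_pos.2 (hs k)).le) (Finset.mem_univ k)
    have h5 : 1 ≤ (∑ k, 1 / s k) * s k := by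
      have := mul_le_mul_of_nonneg_right h4 (hs k).le
      rwa [one_div, inv_mul_cancel₀ (hs k).ne'] at this
    have h6 : 0 ≤ ∑ l, s l := Finset.sum_nonneg fun l _ => (hs l).le
    have h7 : s l ≤ (∑ l, s l) * ((∑ k, 1 / s k) * s k) :=
      h3.trans (le_mul_of_one_le_right h6 h5)
    have h8 := mul_le_mul_of_nonneg_right h7 (nodeR_pos s hs c t ht).le
    refine h8.trans (le_of_eq ?_)
    ring
  · intro c m hm
    have hne : ∑ k, (m k : ℝ) * s k ≠ 0 := fun h => hm (hind m h)
    -- the denominator divided by the node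
    have hden : Tendsto (fun t => (Real.log t + ∑ c' ∈ Finset.Iio c, ∑ k, ((s k : ℂ) * node s c' t).re) /
        nodeR s c t) atTop (𝓝 0) := by
      have h1 : Tendsto (fun t : ℝ => Real.log t / nodeR s c t) atTop (𝓝 0) := by
        have hlog : Tendsto (fun t : ℝ => Real.log t / t) atTop (𝓝 0) := by
          have := Real.isLittleO_log_id_atTop.tendsto_div_nhds_zero
          simpa using this
        rcases Nat.eq_zero_or_pos (c : ℕ) with h | h
        · refine hlog.congr fun t => ?_
          rw [h, nodeR_zero]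
        · have h2 := hlog.mul (nodeR_ratio' s hs hmono 0 c h)
          rw [mul_zero] at h2
          refine h2.congr' ?_
          filter_upwards [eventually_gt_atTop (0 : ℝ)] with t ht
          rw [nodeR_zero]
          have h3 := (nodeR_pos s hs c t ht).ne'
          field_simp
      have h2 : Tendsto (fun t => ∑ c' ∈ Finset.Iio c, ∑ k, s k * (nodeR s c' t / nodeR s c t)) atTop
          (𝓝 (∑ c' ∈ Finset.Iio c, ∑ k : Fin (p + 1), s k * 0)) := by
        refine tendsto_finsetSum _ fun c' hc' => tendsto_finsetSum _ fun k _ => Tendsto.const_mul _ ?_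
        exact nodeR_ratio' s hs hmono c' c (Fin.lt_def.1 (Finset.mem_Iio.1 hc'))
      have h3 := h1.add h2
      simp only [mul_zero, Finset.sum_const_zero, add_zero] at h3
      refine h3.congr fun t => ?_
      simp only [hre]
      rw [add_div, Finset.sum_div]
      congr 1
      refine Finset.sum_congr rfl fun c' _ => ?_
      rw [Finset.sum_div]
      refine Finset.sum_congr rfl fun k _ => ?_
      rw [mul_div_assoc]
    have hpos : ∀ᶠ t : ℝ in atTop, 0 < (Real.log t + ∑ c' ∈ Finset.Iio c, ∑ k, ((s k : ℂ) * node s c' t).re) /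
        nodeR s c t := by
      filter_upwards [eventually_gt_atTop (1 : ℝ)] with t ht
      have ht0 : 0 < t := by linarith
      refine div_pos (add_pos_of_pos_of_nonneg (Real.log_pos ht) ?_) (nodeR_pos s hs c t ht0)
      refine Finset.sum_nonneg fun c' _ => Finset.sum_nonneg fun k _ => ?_
      rw [hre]
      exact (mul_pos (hs k) (nodeR_pos s hs c' t ht0)).le
    have hinv := (tendsto_nhdsWithin_iff.2 ⟨hden, hpos⟩).inv_tendsto_nhdsGT_zero
    refine (hinv.const_mul_atTop (abs_pos.2 hne)).congr' ?_
    filter_upwards [eventually_gt_atTop (0 : ℝ)] with t ht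
    have h4 : ∑ k, (m k : ℝ) * ((s k : ℂ) * node s c t).re = (∑ k, (m k : ℝ) * s k) * nodeR s c t := by
      rw [Finset.sum_mul]
      refine Finset.sum_congr rfl fun k _ => ?_
      rw [hre]
      ring
    rw [h4, abs_mul, abs_of_pos (nodeR_pos s hs c t ht)]
    simp only [Pi.inv_apply, inv_div]
    rw [mul_div_assoc]

end Pool.Agent.Q192.MS
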